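import Mathlib
import Pool.Agent.H359R3.MX9

set_option autoImplicit false
set_option linter.unusedSectionVars false
set_option linter.unusedVariables false

/-!
The shift on `([0,1]^ℕ)^ℤ`, resampling of a coordinate.
-/

namespace Pool.Agent.X182.SM

open MeasureTheory Set Filter Topology
open scoped ENNReal symmDiff
open Pool.H359R3 Pool.H359R3.WH Pool.H359R3.MX

/-- the base space -/
abbrev XX : Type := ℤ × ℕ → ℝ

/-- the product measure -/
noncomputable abbrev mm : Measure XX := Measure.infinitePi (fun _ : ℤ × ℕ => lam)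

/-- the shift -/
def sh : XX ≃ᵐ XX where
  toFun x := fun c => x (c.1 + 1, c.2)
  invFun x := fun c => x (c.1 - 1, c.2)
  left_inv x := by funext c; simp
  right_inv x := by funext c; simp
  measurable_toFun := measurable_pi_lambda _ (fun c => measurable_pi_apply _)
  measurable_invFun := measurable_pi_lambda _ (fun c => measurable_pi_apply _)

theorem sh_apply (x : XX) (c : ℤ × ℕ) : sh x c = x (c.1 + 1, c.2) := rfl

theorem sh_iter (k : ℕ) (x : XX) (c : ℤ × ℕ) : (sh : XX → XX)^[k] x c = x (c.1 + k, c.2) := by
  induction k generalizing x with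
  | zero => simp
  | succ k ih =>
    rw [Function.iterate_succ_apply, ih, sh_apply]
    congr 1
    ext
    · simp only
      push_cast
      ring
    · rfl

theorem sh_mp : MeasurePreserving sh mm mm := by
  refine ⟨sh.measurable, ?_⟩
  apply Measure.eq_infinitePi
  intro s t0 ht
  obtain ⟨t, rfl⟩ : ∃ t : ℤ × ℕ → Set ℝ, t = t0 := ⟨t0, rfl⟩
  have ee : ∀ c : ℤ × ℕ, t (c.1 + 1 - 1, c.2) = t c := by
    intro c
    congr 1
    ext
    · simp
    · rfl
  have hm : MeasurableSet (Set.pi (s : Set (ℤ × ℕ)) t) := MeasurableSet.pi s.countable_toSet (fun i _ => ht i)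
  rw [Measure.map_apply sh.measurable hm]
  let e : (ℤ × ℕ) ↪ (ℤ × ℕ) := ⟨fun c => (c.1 + 1, c.2), fun a b h => by
    simp only [Prod.mk.injEq] at h
    ext
    · have := h.1
      omega
    · exact h.2⟩
  have h1 : (sh : XX → XX) ⁻¹' (Set.pi (s : Set (ℤ × ℕ)) t) =
      Set.pi ((s.map e : Finset (ℤ × ℕ)) : Set (ℤ × ℕ)) (fun c => t (c.1 - 1, c.2)) := by
    ext x
    simp only [mem_preimage, Set.mem_pi, Finset.mem_coe, Finset.mem_map]
    constructor
    · rintro h _ ⟨c, hc, rfl⟩
      have := h c hc
      show x (c.1 + 1, c.2) ∈ t (c.1 + 1 - 1, c.2)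
      rw [ee]
      exact this
    · intro h c hc
      have := h (e c) ⟨c, hc, rfl⟩
      have h2 : x (c.1 + 1, c.2) ∈ t (c.1 + 1 - 1, c.2) := this
      rw [ee] at h2
      exact h2
  rw [h1, Measure.infinitePi_pi]
  · rw [Finset.prod_map]
    apply Finset.prod_congr rfl
    intro c _
    show lam (t (c.1 + 1 - 1, c.2)) = lam (t c)
    rw [ee]
  · intro c hc
    exact ht _

/-- resampling -/
theorem res_mp (c : ℤ × ℕ) :
    MeasurePreserving (fun p : XX × ℝ => Function.update p.1 c p.2) (mm.prod lam) mm := by
  classical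
  have hmeas : Measurable (fun p : XX × ℝ => Function.update p.1 c p.2) := by
    refine measurable_pi_lambda _ (fun i => ?_)
    by_cases h : i = c
    · subst h
      simpa using measurable_snd
    · simp only [Function.update_of_ne h]
      exact (measurable_pi_apply i).comp measurable_fst
  refine ⟨hmeas, ?_⟩
  apply Measure.eq_infinitePi
  intro s t ht
  have hm : MeasurableSet (Set.pi (s : Set (ℤ × ℕ)) t) := MeasurableSet.pi s.countable_toSet (fun i _ => ht i)
  rw [Measure.map_apply hmeas hm]
  by_cases hc : c ∈ s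
  · have h1 : (fun p : XX × ℝ => Function.update p.1 c p.2) ⁻¹' (Set.pi (s : Set (ℤ × ℕ)) t) =
        (Set.pi ((s.erase c : Finset (ℤ × ℕ)) : Set (ℤ × ℕ)) t) ×ˢ (t c) := by
      ext ⟨x, y⟩
      simp only [mem_preimage, Set.mem_pi, Finset.mem_coe, Finset.mem_erase, mem_prod]
      constructor
      · intro h
        refine ⟨fun i hi => ?_, ?_⟩
        · have := h i hi.2
          rwa [Function.update_of_ne hi.1] at this
        · have := h c hc
          rwa [Function.update_self] at this
      · rintro ⟨h, h'⟩ i hi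
        by_cases hic : i = c
        · subst hic
          rwa [Function.update_self]
        · rw [Function.update_of_ne hic]
          exact h i ⟨hic, hi⟩
    rw [h1, Measure.prod_prod, Measure.infinitePi_pi, mul_comm, Finset.mul_prod_erase s (fun i => lam (t i)) hc]
    intro i hi
    exact ht i
  · have h1 : (fun p : XX × ℝ => Function.update p.1 c p.2) ⁻¹' (Set.pi (s : Set (ℤ × ℕ)) t) =
        (Set.pi (s : Set (ℤ × ℕ)) t) ×ˢ univ := by
      ext ⟨x, y⟩
      simp only [mem_preimage, Set.mem_pi, Finset.mem_coe, mem_prod, mem_univ, and_true]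
      constructor
      · intro h i hi
        have hic : i ≠ c := fun h => hc (h ▸ hi)
        have := h i hi
        rwa [Function.update_of_ne hic] at this
      · intro h i hi
        have hic : i ≠ c := fun h => hc (h ▸ hi)
        rw [Function.update_of_ne hic]
        exact h i hi
    rw [h1, Measure.prod_prod, Measure.infinitePi_pi _ (fun i _ => ht i), measure_univ, mul_one]

theorem res_int (c : ℤ × ℕ) (F : XX → ℝ) (hF : Measurable F) (B : ℝ) (hB : ∀ x, |F x| ≤ B) :
    ∫ x, F x ∂mm = ∫ x, ∫ t, F (Function.update x c t) ∂lam ∂mm := by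
  have h1 := (res_mp c).map_eq
  have h2 : ∫ x, F x ∂mm = ∫ p, F (Function.update p.1 c p.2) ∂(mm.prod lam) := by
    conv_lhs => rw [← h1]
    rw [integral_map (res_mp c).measurable.aemeasurable hF.aestronglyMeasurable]
  rw [h2, integral_prod]
  exact Integrable.of_bound (hF.comp (res_mp c).measurable).aestronglyMeasurable B
    (Eventually.of_forall fun p => by rw [Real.norm_eq_abs]; exact hB _)

/-- no dependence on a coordinate -/
def Ind {E : Type*} (f : XX → E) (c : ℤ × ℕ) : Prop := ∀ x t, f (Function.update x c t) = f x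

/-- no atoms -/
instance : NullSingletonClass mm := ⟨fun x => by
  have h1 : ({x} : Set XX) ⊆ (fun y : XX => y (0, 0)) ⁻¹' {x (0, 0)} := by
    intro y hy
    rw [mem_singleton_iff] at hy
    rw [hy]
    rfl
  refine measure_mono_null h1 ?_
  rw [(measurePreserving_eval_infinitePi (fun _ : ℤ × ℕ => lam) (0, 0)).measure_preimage
    (measurableSet_singleton _).nullMeasurableSet]
  exact measure_singleton _⟩

end Pool.Agent.X182.SM
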