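import Mathlib
import Pool.Agent.X182.SM.A

set_option autoImplicit false
set_option linter.unusedSectionVars false
set_option linter.unusedVariables false

/-!
Random scrambles.
-/

namespace Pool.Agent.X182.SM

open MeasureTheory Set Filter Topology
open scoped ENNReal symmDiff
open Pool.H359R3 Pool.H359R3.WH Pool.H359R3.MX

section gen
variable {X : Type*} [MeasurableSpace X] {N : ℕ} [NeZero N]

theorem ms_eq (g : X → Equiv.Perm (Fin N)) (hg : Ms g) (σ : Equiv.Perm (Fin N)) : MeasurableSet {x | g x = σ} := by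
  have h : {x | g x = σ} = ⋂ a, {x | g x a = σ a} := by
    ext x
    simp only [mem_ofPred_eq, mem_iInter]
    exact ⟨fun h a => by rw [h], fun h => Equiv.ext h⟩
  rw [h]
  exact MeasurableSet.iInter fun a => (hg a) (measurableSet_singleton _)

theorem ms_comp (f : X → Equiv.Perm (Fin N) → ℝ) (hf : ∀ σ, Measurable fun x => f x σ)
    (g : X → Equiv.Perm (Fin N)) (hg : Ms g) : Measurable fun x => f x (g x) := by
  classical
  have h : (fun x => f x (g x)) = fun x => ∑ σ, {x | g x = σ}.indicator (fun x => f x σ) x := by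
    funext x
    rw [Finset.sum_eq_single (g x)]
    · rw [indicator_of_mem (show x ∈ {y | g y = g x} from rfl)]
    · intro σ _ hσ
      rw [indicator_of_notMem]
      exact fun h => hσ h.symm
    · intro h
      exact absurd (Finset.mem_univ _) h
  rw [h]
  exact Finset.measurable_sum _ fun σ _ => (hf σ).indicator (ms_eq g hg σ)

theorem ms_mul (g h : X → Equiv.Perm (Fin N)) (hg : Ms g) (hh : Ms h) : Ms (fun x => g x * h x) := by
  intro a
  exact (meas_unc (fun x => g x) hg).comp (measurable_id.prodMk (hh a))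

theorem ms_pre {X' : Type*} [MeasurableSpace X'] (g : X → Equiv.Perm (Fin N)) (hg : Ms g) (t : X' → X)
    (ht : Measurable t) : Ms (fun x => g (t x)) := fun a => (hg a).comp ht

theorem ms_const (σ : Equiv.Perm (Fin N)) : Ms (fun _ : X => σ) := fun a => measurable_const

theorem coc_congr2 (T : X → X) (φ : X → Equiv.Perm (Fin N)) (d : ℕ) (x x' : X)
    (h : ∀ j < d, φ (T^[j] x) = φ (T^[j] x')) : coc T φ d x = coc T φ d x' := by
  induction d with
  | zero => rfl
  | succ d ih =>
    rw [coc_succ, coc_succ, ih (fun j hj => h j (by omega)), h d (by omega)]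

end gen

/-- scrambling letters -/
theorem exists_scr (N : ℕ) [NeZero N] (M : ℕ) (hM : 0 < M) : ∃ π : ℝ → Equiv.Perm (Fin N), Ms π ∧
    lam.real {t | π t ≠ 1} ≤ 1 / M ∧ ∀ f : Equiv.Perm (Fin N) → ℝ, ∑ σ, f σ = 0 → ∀ α β : Equiv.Perm (Fin N),
      ∫ t, f (α * π t * β) ∂lam = (1 - 1 / M) * f (α * β) := by
  classical
  have : NeZero M := ⟨hM.ne'⟩
  set C := Fintype.card (Equiv.Perm (Fin N)) with hC
  have hC0 : 0 < C := Fintype.card_pos
  set K := Fintype.card (Fin M × Equiv.Perm (Fin N)) with hK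
  have hK0 : 0 < K := Fintype.card_pos
  have hKC : K = M * C := by rw [hK, Fintype.card_prod, Fintype.card_fin]
  have hNZ : NeZero K := ⟨hK0.ne'⟩
  let e : Fin K ≃ Fin M × Equiv.Perm (Fin N) := (Fintype.equivFin _).symm
  let P : Fin K → Equiv.Perm (Fin N) := fun k => if (e k).1 = 0 then (e k).2 else 1
  have hMr : (0 : ℝ) < M := by exact_mod_cast hM
  have hCr : (0 : ℝ) < C := by exact_mod_cast hC0
  have hsum : ∀ g : Equiv.Perm (Fin N) → ℝ, ∑ k, g (P k) = ∑ σ, g σ + (M - 1) * (C * g 1) := by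
    intro g
    have h1 : ∑ k, g (P k) = ∑ p : Fin M × Equiv.Perm (Fin N), g (if p.1 = 0 then p.2 else 1) :=
      Equiv.sum_comp e (fun p => g (if p.1 = 0 then p.2 else 1))
    rw [h1, Fintype.sum_prod_type]
    have h2 : ∀ i : Fin M, ∑ σ : Equiv.Perm (Fin N), g (if (i, σ).1 = 0 then (i, σ).2 else 1) =
        (if i = 0 then ∑ σ, g σ - C * g 1 else 0) + C * g 1 := by
      intro i
      by_cases hi : i = 0
      · simp [hi]
      · simp only [hi, if_false, Finset.sum_const, Finset.card_univ, nsmul_eq_mul]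
        rw [← hC]
        ring
    rw [Finset.sum_congr rfl (fun i _ => h2 i), Finset.sum_add_distrib, Finset.sum_ite_eq']
    simp only [Finset.mem_univ, if_true, Finset.sum_const, Finset.card_univ, Fintype.card_fin, nsmul_eq_mul]
    ring
  refine ⟨fun t => P (flf K t), ?_, ?_, ?_⟩
  · intro a
    exact (measurable_of_countable (fun k => P k a)).comp (flf_meas K)
  · have h1 : lam.real {t | P (flf K t) ≠ 1} = ∫ t, (if P (flf K t) ≠ 1 then (1 : ℝ) else 0) ∂lam := by
      have hm : MeasurableSet {t | P (flf K t) ≠ 1} := by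
        have : MeasurableSet {k : Fin K | P k ≠ 1} := MeasurableSet.of_discrete
        exact (flf_meas K) this
      have h2 : (fun t => if P (flf K t) ≠ 1 then (1 : ℝ) else 0) = {t | P (flf K t) ≠ 1}.indicator 1 := by
        funext t
        by_cases h : P (flf K t) ≠ 1
        · rw [if_pos h, indicator_of_mem (show t ∈ {t | P (flf K t) ≠ 1} from h)]
          rfl
        · rw [if_neg h, indicator_of_notMem (show t ∉ {t | P (flf K t) ≠ 1} from h)]
      rw [h2, integral_indicator_one hm]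
    rw [h1, int_lab (fun k : Fin K => if P k ≠ 1 then (1 : ℝ) else 0), hsum (fun σ => if σ ≠ 1 then (1 : ℝ) else 0)]
    have h3 : ∑ σ : Equiv.Perm (Fin N), (if σ ≠ 1 then (1 : ℝ) else 0) ≤ C := by
      calc ∑ σ : Equiv.Perm (Fin N), (if σ ≠ 1 then (1 : ℝ) else 0) ≤ ∑ σ : Equiv.Perm (Fin N), (1 : ℝ) := by
            apply Finset.sum_le_sum
            intro σ _
            split_ifs <;> norm_num
        _ = C := by simp [hC]
    simp only [ne_eq, not_true_eq_false, if_false, mul_zero, add_zero]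
    rw [hKC]
    push_cast
    rw [one_div_mul_eq_div, div_le_div_iff₀ (by positivity) hMr]
    have h4 : ∑ σ : Equiv.Perm (Fin N), (if ¬ σ = 1 then (1 : ℝ) else 0) ≤ C := h3
    nlinarith
  · intro f hf α β
    rw [int_lab (fun k : Fin K => f (α * P k * β)), hsum (fun σ => f (α * σ * β))]
    have h1 : ∑ σ, f (α * σ * β) = 0 := by
      rw [← hf]
      exact Equiv.sum_comp ((Equiv.mulLeft α).trans (Equiv.mulRight β)) f
    rw [h1, hKC, mul_one]
    push_cast
    field_simp
    ring

section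
variable {N : ℕ} [NeZero N]

/-- the scrambled cocycle -/
def Phi (φ1 : XX → Equiv.Perm (Fin N)) (π : ℝ → Equiv.Perm (Fin N)) (l : ℕ) (x : XX) : Equiv.Perm (Fin N) :=
  φ1 x * π (x (0, l))

theorem Phi_ms (φ1 : XX → Equiv.Perm (Fin N)) (h1 : Ms φ1) (π : ℝ → Equiv.Perm (Fin N)) (hπ : Ms π) (l : ℕ) :
    Ms (Phi φ1 π l) :=
  ms_mul φ1 _ h1 (ms_pre π hπ (fun x : XX => x (0, l)) (measurable_pi_apply _))

theorem sh_update (k : ℕ) (x : XX) (c : ℤ × ℕ) (t : ℝ) :
    (sh : XX → XX)^[k] (Function.update x c t) = Function.update ((sh : XX → XX)^[k] x) (c.1 - k, c.2) t := by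
  funext i
  rw [sh_iter]
  by_cases h : i = (c.1 - k, c.2)
  · subst h
    rw [Function.update_self]
    have : ((c.1 - (k : ℤ), c.2).1 + (k : ℤ), (c.1 - (k : ℤ), c.2).2) = c := by
      ext
      · simp
      · rfl
    rw [this, Function.update_self]
  · rw [Function.update_of_ne h, sh_iter, Function.update_of_ne]
    intro h2
    apply h
    rw [← h2]
    ext
    · simp
    · rfl

/-- time `k` of the cocycle started at time `s` depends only on the letters at times `s, …, s + k - 1` -/
theorem coc_ind (φ1 : XX → Equiv.Perm (Fin N)) (π : ℝ → Equiv.Perm (Fin N)) (l : ℕ)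
    (hφ : ∀ t : ℤ, Ind φ1 (t, l)) (s k : ℕ) (c : ℤ) (hc : ∀ j : ℕ, s ≤ j → j < s + k → c ≠ j) :
    Ind (fun x => coc sh (Phi φ1 π l) k ((sh : XX → XX)^[s] x)) (c, l) := by
  intro x t
  apply coc_congr2
  intro j hj
  rw [← Function.iterate_add_apply, ← Function.iterate_add_apply, sh_update]
  unfold Phi
  rw [hφ]
  congr 2
  rw [Function.update_of_ne]
  intro h
  simp only [Prod.mk.injEq] at h
  have := hc (j + s) (by omega) (by omega)
  push_cast at this h
  omega

theorem dec (φ1 : XX → Equiv.Perm (Fin N)) (h1 : Ms φ1) (π : ℝ → Equiv.Perm (Fin N)) (hπ : Ms π) (l : ℕ)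
    (hφ : ∀ t : ℤ, Ind φ1 (t, l)) (q : ℝ) (hq : 0 ≤ q)
    (hscr : ∀ f : Equiv.Perm (Fin N) → ℝ, ∑ σ, f σ = 0 → ∀ α β : Equiv.Perm (Fin N),
      ∫ t, f (α * π t * β) ∂lam = q * f (α * β)) (s : ℕ) (B : ℝ) (k : ℕ) :
    ∀ f : XX → Equiv.Perm (Fin N) → ℝ, (∀ σ, Measurable fun x => f x σ) → (∀ x σ, |f x σ| ≤ B) →
      (∀ x, ∑ σ, f x σ = 0) → (∀ j : ℕ, s ≤ j → j < s + k → Ind f ((j : ℤ), l)) →
      |∫ x, f x (coc sh (Phi φ1 π l) k ((sh : XX → XX)^[s] x)) ∂mm| ≤ q ^ k * B := by
  induction k with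
  | zero =>
    intro f hf hB _ _
    rw [pow_zero, one_mul]
    have h2 := norm_integral_le_of_norm_le_const (μ := mm) (C := B)
      (f := fun x => f x (coc sh (Phi φ1 π l) 0 ((sh : XX → XX)^[s] x)))
      (Eventually.of_forall fun x => by rw [Real.norm_eq_abs]; exact hB _ _)
    simpa using h2
  | succ k ih =>
    intro f hf hB hs hI
    have hshm : ∀ j, Measurable ((sh : XX → XX)^[j]) := fun j => sh.measurable.iterate j
    have hΦ := Phi_ms φ1 h1 π hπ l
    have hcocm : Ms (fun x => coc sh (Phi φ1 π l) k ((sh : XX → XX)^[s] x)) :=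
      ms_pre _ (coc_ms sh sh.measurable _ hΦ k) _ (hshm s)
    have hαm : Ms (fun x => φ1 ((sh : XX → XX)^[k + s] x)) := ms_pre _ h1 _ (hshm _)
    set c : ℤ × ℕ := (((k + s : ℕ) : ℤ), l) with hc
    let F : XX → ℝ := fun x => f x (φ1 ((sh : XX → XX)^[k + s] x) * π (x c) *
      coc sh (Phi φ1 π l) k ((sh : XX → XX)^[s] x))
    have hF : (fun x => f x (coc sh (Phi φ1 π l) (k + 1) ((sh : XX → XX)^[s] x))) = F := by
      funext x
      show f x _ = f x _
      rw [coc_succ, ← Function.iterate_add_apply]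
      congr 2
      unfold Phi
      rw [sh_iter]
      congr 3
      rw [hc]
      ext
      · simp
      · rfl
    have hFm : Measurable F := ms_comp f hf _ (ms_mul _ _ (ms_mul _ _ hαm
      (ms_pre π hπ (fun x : XX => x c) (measurable_pi_apply _))) hcocm)
    have hIc : Ind f c := hI (k + s) (by omega) (by omega)
    have hcc := coc_ind φ1 π l hφ s k ((k + s : ℕ) : ℤ) (fun j hj1 hj2 h => by
      have : k + s = j := by exact_mod_cast h
      omega)
    rw [hF, res_int c F hFm B (fun x => hB _ _)]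
    have h3 : ∀ x t, F (Function.update x c t) = f x (φ1 ((sh : XX → XX)^[k + s] x) * π t *
        coc sh (Phi φ1 π l) k ((sh : XX → XX)^[s] x)) := by
      intro x t
      show f (Function.update x c t) _ = _
      rw [hIc]
      have h4 : coc sh (Phi φ1 π l) k ((sh : XX → XX)^[s] (Function.update x c t)) =
          coc sh (Phi φ1 π l) k ((sh : XX → XX)^[s] x) := hcc x t
      rw [h4, sh_update, hφ, Function.update_self]
    have h5 : ∀ x, ∫ t, F (Function.update x c t) ∂lam = q * f x (φ1 ((sh : XX → XX)^[k + s] x) *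
        coc sh (Phi φ1 π l) k ((sh : XX → XX)^[s] x)) := by
      intro x
      simp_rw [h3]
      exact hscr (f x) (hs x) _ _
    simp_rw [h5]
    rw [integral_const_mul, abs_mul, abs_of_nonneg hq, pow_succ, mul_comm (q ^ k) q, mul_assoc]
    apply mul_le_mul_of_nonneg_left _ hq
    refine ih (fun x σ => f x (φ1 ((sh : XX → XX)^[k + s] x) * σ)) ?_ ?_ ?_ ?_
    · intro σ
      exact ms_comp f hf _ (ms_mul _ _ hαm (ms_const σ))
    · intro x σ
      exact hB _ _
    · intro x
      rw [← hs x]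
      exact Equiv.sum_comp (Equiv.mulLeft (φ1 ((sh : XX → XX)^[k + s] x))) (f x)
    · intro j hj1 hj2 x t
      funext σ
      show f (Function.update x ((j : ℤ), l) t) _ = f x _
      rw [hI j hj1 (by omega), sh_update, hφ]

end

end Pool.Agent.X182.SM
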