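import Mathlib
import Pool.Agent.X182.SM.B

set_option autoImplicit false
set_option linter.unusedSectionVars false
set_option linter.unusedVariables false

/-!
Second moment of the averages.
-/

namespace Pool.Agent.X182.SM

open MeasureTheory Set Filter Topology
open scoped ENNReal symmDiff
open Pool.H359R3 Pool.H359R3.WH Pool.H359R3.MX

section fin
variable {N : ℕ} [NeZero N]

/-- average over all permutations -/
noncomputable def EE (w : Fin N → ℝ) (b b' : Fin N) : ℝ :=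
  (∑ σ : Equiv.Perm (Fin N), w (σ b) * w (σ b')) / (Fintype.card (Equiv.Perm (Fin N)) : ℝ)

theorem EE_abs (w : Fin N → ℝ) (hw : ∀ b, |w b| ≤ 1) (b b' : Fin N) : |EE w b b'| ≤ 1 := by
  unfold EE
  have hC : (0 : ℝ) < (Fintype.card (Equiv.Perm (Fin N)) : ℝ) := by exact_mod_cast Fintype.card_pos
  rw [abs_div, abs_of_pos hC, div_le_one hC]
  calc |∑ σ : Equiv.Perm (Fin N), w (σ b) * w (σ b')| ≤ ∑ σ : Equiv.Perm (Fin N), |w (σ b) * w (σ b')| :=
        Finset.abs_sum_le_sum_abs _ _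
    _ ≤ ∑ σ : Equiv.Perm (Fin N), (1 : ℝ) := by
        apply Finset.sum_le_sum
        intro σ _
        rw [abs_mul]
        exact mul_le_one₀ (hw _) (abs_nonneg _) (hw _)
    _ = _ := by simp

theorem EE_off (w : Fin N → ℝ) (hw : ∀ b, |w b| ≤ 1) (hs : ∑ b, w b = 0) (b b' : Fin N) (h : b ≠ b') :
    |EE w b b'| * ((N : ℝ) - 1) ≤ 1 := by
  have hC : (0 : ℝ) < (Fintype.card (Equiv.Perm (Fin N)) : ℝ) := by exact_mod_cast Fintype.card_pos
  have h1 : ∀ b'', b'' ≠ b → EE w b b'' = EE w b b' := by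
    intro b'' hb
    unfold EE
    congr 1
    rw [← Equiv.sum_comp (Equiv.mulRight (Equiv.swap b' b''))]
    apply Finset.sum_congr rfl
    intro σ _
    rw [Equiv.coe_mulRight, Equiv.Perm.mul_apply, Equiv.Perm.mul_apply, Equiv.swap_apply_of_ne_of_ne h hb.symm,
      Equiv.swap_apply_right]
  have h2 : ∑ b'', EE w b b'' = 0 := by
    unfold EE
    rw [← Finset.sum_div, Finset.sum_comm]
    have : ∀ σ : Equiv.Perm (Fin N), ∑ b'', w (σ b) * w (σ b'') = 0 := by
      intro σ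
      rw [← Finset.mul_sum, Equiv.sum_comp σ w, hs, mul_zero]
    rw [Finset.sum_congr rfl (fun σ _ => this σ)]
    simp
  rw [← Finset.add_sum_erase _ _ (Finset.mem_univ b)] at h2
  have h3 : ∑ b'' ∈ Finset.univ.erase b, EE w b b'' = ((N : ℝ) - 1) * EE w b b' := by
    rw [Finset.sum_congr rfl (fun b'' hb => h1 b'' (Finset.ne_of_mem_erase hb)), Finset.sum_const,
      Finset.card_erase_of_mem (Finset.mem_univ b), Finset.card_univ, Fintype.card_fin, nsmul_eq_mul]
    congr 1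
    have : 1 ≤ N := NeZero.one_le
    push_cast [this]
    ring
  rw [h3] at h2
  have h4 : |((N : ℝ) - 1) * EE w b b'| ≤ 1 := by
    have : ((N : ℝ) - 1) * EE w b b' = - EE w b b := by linarith
    rw [this, abs_neg]
    exact EE_abs w hw b b
  have h5 : (0 : ℝ) ≤ (N : ℝ) - 1 := by
    have : (1 : ℝ) ≤ N := by exact_mod_cast (NeZero.one_le : 1 ≤ N)
    linarith
  rw [abs_mul, abs_of_nonneg h5] at h4
  linarith

theorem EE_sum (w : Fin N → ℝ) (hw : ∀ b, |w b| ≤ 1) (hs : ∑ b, w b = 0) :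
    ∑ b, ∑ b', |EE w b b'| ≤ 2 * N := by
  have h1 : ∀ b : Fin N, ∑ b', |EE w b b'| ≤ 2 := by
    intro b
    rw [← Finset.add_sum_erase _ _ (Finset.mem_univ b)]
    have h2 : ∑ b' ∈ Finset.univ.erase b, |EE w b b'| ≤ 1 := by
      by_cases hN : N = 1
      · subst hN
        have : (Finset.univ.erase b : Finset (Fin 1)) = ∅ := by
          ext c
          simp only [Finset.mem_erase, Finset.mem_univ, and_true, Finset.notMem_empty, iff_false, not_not]
          exact Subsingleton.elim _ _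
        rw [this]
        simp
      · have hN2 : 2 ≤ N := by
          have : 1 ≤ N := NeZero.one_le
          omega
        have hN0 : (0 : ℝ) < (N : ℝ) - 1 := by
          have : (2 : ℝ) ≤ N := by exact_mod_cast hN2
          linarith
        have h3 : ∀ b' ∈ Finset.univ.erase b, |EE w b b'| ≤ 1 / ((N : ℝ) - 1) := by
          intro b' hb'
          rw [le_div_iff₀ hN0]
          exact EE_off w hw hs b b' (Finset.ne_of_mem_erase hb').symm
        refine le_trans (Finset.sum_le_sum h3) ?_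
        rw [Finset.sum_const, Finset.card_erase_of_mem (Finset.mem_univ b), Finset.card_univ, Fintype.card_fin,
          nsmul_eq_mul]
        have : ((N - 1 : ℕ) : ℝ) = (N : ℝ) - 1 := by
          have : 1 ≤ N := NeZero.one_le
          push_cast [this]
          ring
        rw [this, mul_one_div_cancel hN0.ne']
    have h4 := EE_abs w hw b b
    linarith
  refine le_trans (Finset.sum_le_sum (fun b _ => h1 b)) ?_
  rw [Finset.sum_const, Finset.card_univ, Fintype.card_fin, nsmul_eq_mul]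
  linarith

/-- centred product -/
noncomputable def uu (w : Fin N → ℝ) (b b' : Fin N) (σ : Equiv.Perm (Fin N)) : ℝ := w (σ b) * w (σ b') - EE w b b'

theorem uu_sum (w : Fin N → ℝ) (b b' : Fin N) (τ : Equiv.Perm (Fin N)) : ∑ σ, uu w b b' (σ * τ) = 0 := by
  have h0 : ∑ σ, uu w b b' (σ * τ) = ∑ σ, uu w b b' σ := Equiv.sum_comp (Equiv.mulRight τ) (uu w b b')
  rw [h0]
  unfold uu EE
  have hC : (Fintype.card (Equiv.Perm (Fin N)) : ℝ) ≠ 0 := by exact_mod_cast Fintype.card_ne_zero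
  rw [Finset.sum_sub_distrib, Finset.sum_const, Finset.card_univ, nsmul_eq_mul, mul_div_cancel₀ _ hC, sub_self]

theorem prod_abs (w : Fin N → ℝ) (hw : ∀ b, |w b| ≤ 1) (b b' : Fin N) : |w b * w b'| ≤ 1 := by
  rw [abs_mul]
  exact mul_le_one₀ (hw _) (abs_nonneg _) (hw _)

theorem uu_abs (w : Fin N → ℝ) (hw : ∀ b, |w b| ≤ 1) (b b' : Fin N) (σ : Equiv.Perm (Fin N)) :
    |uu w b b' σ| ≤ 2 := by
  unfold uu
  have h1 := prod_abs w hw (σ b) (σ b')
  have h2 := EE_abs w hw b b'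
  rw [abs_le] at *
  constructor <;> linarith

/-- the centred fourfold product -/
noncomputable def FF (w w' : Fin N → ℝ) (b b' a a' : Fin N) (σ τ : Equiv.Perm (Fin N)) : ℝ :=
  w (σ b) * w (σ b') * (w' (τ a) * w' (τ a')) - EE w b b' * EE w' a a'

theorem FF_eq (w w' : Fin N → ℝ) (b b' a a' : Fin N) (σ τ : Equiv.Perm (Fin N)) :
    FF w w' b b' a a' σ τ = uu w b b' σ * (w' (τ a) * w' (τ a')) + EE w b b' * uu w' a a' τ := by
  unfold FF uu
  ring

theorem FF_abs (w w' : Fin N → ℝ) (hw : ∀ b, |w b| ≤ 1) (hw' : ∀ b, |w' b| ≤ 1) (b b' a a' : Fin N)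
    (σ τ : Equiv.Perm (Fin N)) : |FF w w' b b' a a' σ τ| ≤ 2 := by
  unfold FF
  have h1 : |w (σ b) * w (σ b') * (w' (τ a) * w' (τ a'))| ≤ 1 := by
    rw [abs_mul]
    exact mul_le_one₀ (prod_abs w hw _ _) (abs_nonneg _) (prod_abs w' hw' _ _)
  have h2 : |EE w b b' * EE w' a a'| ≤ 1 := by
    rw [abs_mul]
    exact mul_le_one₀ (EE_abs w hw _ _) (abs_nonneg _) (EE_abs w' hw' _ _)
  rw [abs_le] at *
  constructor <;> linarith

end fin

section
variable {N : ℕ} [NeZero N]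

theorem pair (φ1 : XX → Equiv.Perm (Fin N)) (h1 : Ms φ1) (π : ℝ → Equiv.Perm (Fin N)) (hπ : Ms π) (l : ℕ)
    (hφ : ∀ t : ℤ, Ind φ1 (t, l)) (q : ℝ) (hq : 0 ≤ q)
    (hscr : ∀ f : Equiv.Perm (Fin N) → ℝ, ∑ σ, f σ = 0 → ∀ α β : Equiv.Perm (Fin N),
      ∫ t, f (α * π t * β) ∂lam = q * f (α * β))
    (w w' : Fin N → ℝ) (hw : ∀ b, |w b| ≤ 1) (hw' : ∀ b, |w' b| ≤ 1) (b b' a a' : Fin N)
    (n i d : ℕ) (hn : i + d ≤ n) :
    |∫ x, FF w w' b b' a a' (coc sh (Phi φ1 π l) i ((sh : XX → XX)^[n] x)) (coc sh (Phi φ1 π l) i x) *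
      FF w w' b b' a a' (coc sh (Phi φ1 π l) (d + i) ((sh : XX → XX)^[n] x)) (coc sh (Phi φ1 π l) (d + i) x) ∂mm| ≤
      8 * q ^ d := by
  set Φ := Phi φ1 π l with hΦd
  have hΦ : Ms Φ := Phi_ms φ1 h1 π hπ l
  have hshm : ∀ j, Measurable ((sh : XX → XX)^[j]) := fun j => sh.measurable.iterate j
  have hc : ∀ k s, Ms (fun x => coc sh Φ k ((sh : XX → XX)^[s] x)) := fun k s =>
    ms_pre _ (coc_ms sh sh.measurable _ hΦ k) _ (hshm s)
  have hc0 : ∀ k, Ms (fun x => coc sh Φ k x) := fun k => coc_ms sh sh.measurable _ hΦ k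
  have hev : ∀ (g : Fin N → ℝ) (ψ : XX → Equiv.Perm (Fin N)), Ms ψ → ∀ c, Measurable fun x => g (ψ x c) :=
    fun g ψ hψ c => (measurable_of_countable g).comp (hψ c)
  have hprm : ∀ (g : Fin N → ℝ) (ψ : XX → Equiv.Perm (Fin N)), Ms ψ → ∀ c c', Measurable fun x => g (ψ x c) * g (ψ x c') :=
    fun g ψ hψ c c' => (hev g ψ hψ c).mul (hev g ψ hψ c')
  have huum : ∀ (g : Fin N → ℝ) (ψ : XX → Equiv.Perm (Fin N)), Ms ψ → ∀ c c', Measurable fun x => uu g c c' (ψ x) :=
    fun g ψ hψ c c' => (hprm g ψ hψ c c').sub measurable_const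
  let Fi : XX → ℝ := fun x => FF w w' b b' a a' (coc sh Φ i ((sh : XX → XX)^[n] x)) (coc sh Φ i x)
  have hFim : Measurable Fi := ((hprm w _ (hc i n) b b').mul (hprm w' _ (hc0 i) a a')).sub measurable_const
  let Wj : XX → ℝ := fun x => w' (coc sh Φ (d + i) x a) * w' (coc sh Φ (d + i) x a')
  have hWjm : Measurable Wj := hprm w' _ (hc0 (d + i)) a a'
  -- dependence
  have hci : ∀ (s k : ℕ) (c : ℕ), (c < s ∨ s + k ≤ c) → ∀ x t,
      coc sh Φ k ((sh : XX → XX)^[s] (Function.update x ((c : ℤ), l) t)) = coc sh Φ k ((sh : XX → XX)^[s] x) := by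
    intro s k c hcc x t
    exact coc_ind φ1 π l hφ s k (c : ℤ) (fun j hj1 hj2 h => by
      have : c = j := by exact_mod_cast h
      omega) x t
  have hci0 : ∀ (k : ℕ) (c : ℕ), k ≤ c → ∀ x t,
      coc sh Φ k (Function.update x ((c : ℤ), l) t) = coc sh Φ k x := by
    intro k c hcc x t
    exact hci 0 k c (Or.inr (by omega)) x t
  let f1 : XX → Equiv.Perm (Fin N) → ℝ := fun x σ => Fi x * Wj x *
    uu w b b' (σ * coc sh Φ i ((sh : XX → XX)^[n] x))
  let f2 : XX → Equiv.Perm (Fin N) → ℝ := fun x σ => Fi x * EE w b b' *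
    uu w' a a' (σ * coc sh Φ i x)
  have hFia : ∀ x, |Fi x| ≤ 2 := fun x => FF_abs w w' hw hw' _ _ _ _ _ _
  have hWja : ∀ x, |Wj x| ≤ 1 := fun x => prod_abs w' hw' _ _
  have d1 := dec φ1 h1 π hπ l hφ q hq hscr (n + i) 4 d f1 (fun σ => (hFim.mul hWjm).mul
      (huum w _ (ms_mul _ _ (ms_const σ) (hc i n)) b b')) (fun x σ => by
        show |Fi x * Wj x * uu w b b' _| ≤ 4
        rw [abs_mul, abs_mul]
        have e1 := hFia x
        have e2 := hWja x
        have e3 := uu_abs w hw b b' (σ * coc sh Φ i ((sh : XX → XX)^[n] x))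
        have e4 : |Fi x| * |Wj x| ≤ 2 * 1 := mul_le_mul e1 e2 (abs_nonneg _) (by norm_num)
        calc |Fi x| * |Wj x| * |uu w b b' (σ * coc sh Φ i ((sh : XX → XX)^[n] x))| ≤ (2 * 1) * 2 :=
              mul_le_mul e4 e3 (abs_nonneg _) (by norm_num)
          _ = 4 := by norm_num)
      (fun x => by
        show ∑ σ, Fi x * Wj x * uu w b b' (σ * _) = 0
        rw [← Finset.mul_sum, uu_sum, mul_zero])
      (fun j hj1 hj2 x t => by
        funext σ
        show Fi _ * Wj _ * uu w b b' (σ * coc sh Φ i ((sh : XX → XX)^[n] (Function.update x ((j : ℤ), l) t))) =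
          Fi x * Wj x * uu w b b' (σ * coc sh Φ i ((sh : XX → XX)^[n] x))
        have e1 : Fi (Function.update x ((j : ℤ), l) t) = Fi x := by
          show FF w w' b b' a a' _ _ = FF w w' b b' a a' _ _
          rw [hci n i j (Or.inr hj1), hci0 i j (by omega)]
        have e2 : Wj (Function.update x ((j : ℤ), l) t) = Wj x := by
          show w' _ * w' _ = w' _ * w' _
          rw [hci0 (d + i) j (by omega)]
        rw [e1, e2, hci n i j (Or.inr hj1)])
  have d2 := dec φ1 h1 π hπ l hφ q hq hscr i 4 d f2 (fun σ => (hFim.mul measurable_const).mul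
      (huum w' _ (ms_mul _ _ (ms_const σ) (hc0 i)) a a')) (fun x σ => by
        show |Fi x * EE w b b' * uu w' a a' _| ≤ 4
        rw [abs_mul, abs_mul]
        have e1 := hFia x
        have e2 := EE_abs w hw b b'
        have e3 := uu_abs w' hw' a a' (σ * coc sh Φ i x)
        have e4 : |Fi x| * |EE w b b'| ≤ 2 * 1 := mul_le_mul e1 e2 (abs_nonneg _) (by norm_num)
        calc |Fi x| * |EE w b b'| * |uu w' a a' (σ * coc sh Φ i x)| ≤ (2 * 1) * 2 :=
              mul_le_mul e4 e3 (abs_nonneg _) (by norm_num)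
          _ = 4 := by norm_num)
      (fun x => by
        show ∑ σ, Fi x * EE w b b' * uu w' a a' (σ * _) = 0
        rw [← Finset.mul_sum, uu_sum, mul_zero])
      (fun j hj1 hj2 x t => by
        funext σ
        show Fi _ * EE w b b' * uu w' a a' (σ * coc sh Φ i (Function.update x ((j : ℤ), l) t)) =
          Fi x * EE w b b' * uu w' a a' (σ * coc sh Φ i x)
        have e1 : Fi (Function.update x ((j : ℤ), l) t) = Fi x := by
          show FF w w' b b' a a' _ _ = FF w w' b b' a a' _ _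
          rw [hci n i j (Or.inl (by omega)), hci0 i j hj1]
        rw [e1, hci0 i j hj1])
  have hsplit : ∀ x, FF w w' b b' a a' (coc sh Φ i ((sh : XX → XX)^[n] x)) (coc sh Φ i x) *
      FF w w' b b' a a' (coc sh Φ (d + i) ((sh : XX → XX)^[n] x)) (coc sh Φ (d + i) x) =
      f1 x (coc sh Φ d ((sh : XX → XX)^[n + i] x)) + f2 x (coc sh Φ d ((sh : XX → XX)^[i] x)) := by
    intro x
    show Fi x * _ = Fi x * Wj x * uu w b b' (_ * _) + Fi x * EE w b b' * uu w' a a' (_ * _)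
    have e1 : coc sh Φ d ((sh : XX → XX)^[n + i] x) * coc sh Φ i ((sh : XX → XX)^[n] x) =
        coc sh Φ (d + i) ((sh : XX → XX)^[n] x) := by
      rw [coc_add, ← Function.iterate_add_apply, Nat.add_comm n i]
    have e2 : coc sh Φ d ((sh : XX → XX)^[i] x) * coc sh Φ i x = coc sh Φ (d + i) x := by
      rw [coc_add]
    rw [e1, e2, FF_eq w w' b b' a a' (coc sh Φ (d + i) ((sh : XX → XX)^[n] x))]
    show Fi x * (_ * Wj x + _) = _
    ring
  have hm1 : Measurable (fun x => f1 x (coc sh Φ d ((sh : XX → XX)^[n + i] x))) :=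
    ms_comp f1 (fun σ => (hFim.mul hWjm).mul (huum w _ (ms_mul _ _ (ms_const σ) (hc i n)) b b')) _ (hc d (n + i))
  have hm2 : Measurable (fun x => f2 x (coc sh Φ d ((sh : XX → XX)^[i] x))) :=
    ms_comp f2 (fun σ => (hFim.mul measurable_const).mul (huum w' _ (ms_mul _ _ (ms_const σ) (hc0 i)) a a')) _ (hc d i)
  have hb1 : ∀ x σ, |f1 x σ| ≤ 4 := fun x σ => by
    show |Fi x * Wj x * uu w b b' _| ≤ 4
    rw [abs_mul, abs_mul]
    have e1 := hFia x
    have e2 := hWja x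
    have e3 := uu_abs w hw b b' (σ * coc sh Φ i ((sh : XX → XX)^[n] x))
    have e4 : |Fi x| * |Wj x| ≤ 2 * 1 := mul_le_mul e1 e2 (abs_nonneg _) (by norm_num)
    calc |Fi x| * |Wj x| * |uu w b b' (σ * coc sh Φ i ((sh : XX → XX)^[n] x))| ≤ (2 * 1) * 2 :=
          mul_le_mul e4 e3 (abs_nonneg _) (by norm_num)
      _ = 4 := by norm_num
  have hb2 : ∀ x σ, |f2 x σ| ≤ 4 := fun x σ => by
    show |Fi x * EE w b b' * uu w' a a' _| ≤ 4
    rw [abs_mul, abs_mul]
    have e1 := hFia x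
    have e2 := EE_abs w hw b b'
    have e3 := uu_abs w' hw' a a' (σ * coc sh Φ i x)
    have e4 : |Fi x| * |EE w b b'| ≤ 2 * 1 := mul_le_mul e1 e2 (abs_nonneg _) (by norm_num)
    calc |Fi x| * |EE w b b'| * |uu w' a a' (σ * coc sh Φ i x)| ≤ (2 * 1) * 2 :=
          mul_le_mul e4 e3 (abs_nonneg _) (by norm_num)
      _ = 4 := by norm_num
  simp_rw [hsplit]
  rw [integral_add (integrable_of_abs_le mm hm1 4 (fun x => hb1 _ _)) (integrable_of_abs_le mm hm2 4 (fun x => hb2 _ _))]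
  calc _ ≤ |∫ x, f1 x (coc sh Φ d ((sh : XX → XX)^[n + i] x)) ∂mm| +
      |∫ x, f2 x (coc sh Φ d ((sh : XX → XX)^[i] x)) ∂mm| := abs_add_le _ _
    _ ≤ q ^ d * 4 + q ^ d * 4 := add_le_add d1 d2
    _ = 8 * q ^ d := by ring

theorem quad (φ1 : XX → Equiv.Perm (Fin N)) (h1 : Ms φ1) (π : ℝ → Equiv.Perm (Fin N)) (hπ : Ms π) (l : ℕ)
    (hφ : ∀ t : ℤ, Ind φ1 (t, l)) (q : ℝ) (hq : 0 ≤ q) (hq1 : q < 1)
    (hscr : ∀ f : Equiv.Perm (Fin N) → ℝ, ∑ σ, f σ = 0 → ∀ α β : Equiv.Perm (Fin N),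
      ∫ t, f (α * π t * β) ∂lam = q * f (α * β))
    (w w' : Fin N → ℝ) (hw : ∀ b, |w b| ≤ 1) (hw' : ∀ b, |w' b| ≤ 1) (b b' a a' : Fin N)
    (n L : ℕ) (hn : L ≤ n) :
    ∫ x, (∑ i ∈ Finset.range L, FF w w' b b' a a' (coc sh (Phi φ1 π l) i ((sh : XX → XX)^[n] x))
      (coc sh (Phi φ1 π l) i x)) ^ 2 ∂mm ≤ 16 * L / (1 - q) := by
  set Φ := Phi φ1 π l with hΦd
  have hΦ : Ms Φ := Phi_ms φ1 h1 π hπ l
  have hshm : ∀ j, Measurable ((sh : XX → XX)^[j]) := fun j => sh.measurable.iterate j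
  have hc : ∀ k s, Ms (fun x => coc sh Φ k ((sh : XX → XX)^[s] x)) := fun k s =>
    ms_pre _ (coc_ms sh sh.measurable _ hΦ k) _ (hshm s)
  have hc0 : ∀ k, Ms (fun x => coc sh Φ k x) := fun k => coc_ms sh sh.measurable _ hΦ k
  have hev : ∀ (g : Fin N → ℝ) (ψ : XX → Equiv.Perm (Fin N)), Ms ψ → ∀ c, Measurable fun x => g (ψ x c) :=
    fun g ψ hψ c => (measurable_of_countable g).comp (hψ c)
  have hprm : ∀ (g : Fin N → ℝ) (ψ : XX → Equiv.Perm (Fin N)), Ms ψ → ∀ c c', Measurable fun x => g (ψ x c) * g (ψ x c') :=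
    fun g ψ hψ c c' => (hev g ψ hψ c).mul (hev g ψ hψ c')
  let F : ℕ → XX → ℝ := fun i x => FF w w' b b' a a' (coc sh Φ i ((sh : XX → XX)^[n] x)) (coc sh Φ i x)
  have hFm : ∀ i, Measurable (F i) := fun i =>
    ((hprm w _ (hc i n) b b').mul (hprm w' _ (hc0 i) a a')).sub measurable_const
  have hFa : ∀ i x, |F i x| ≤ 2 := fun i x => FF_abs w w' hw hw' _ _ _ _ _ _
  have hFF : ∀ i j, Integrable (fun x => F i x * F j x) mm := fun i j =>
    integrable_of_abs_le mm ((hFm i).mul (hFm j)) 4 (fun x => by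
      rw [abs_mul]
      calc |F i x| * |F j x| ≤ 2 * 2 := mul_le_mul (hFa i x) (hFa j x) (abs_nonneg _) (by norm_num)
        _ = 4 := by norm_num)
  have h2 : ∫ x, (∑ i ∈ Finset.range L, F i x) ^ 2 ∂mm =
      ∑ i ∈ Finset.range L, ∑ j ∈ Finset.range L, ∫ x, F i x * F j x ∂mm := by
    have h3 : ∀ x, (∑ i ∈ Finset.range L, F i x) ^ 2 =
        ∑ i ∈ Finset.range L, ∑ j ∈ Finset.range L, F i x * F j x := fun x => by
      rw [sq, Finset.sum_mul_sum]
    simp_rw [h3]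
    rw [integral_finsetSum _ (fun i _ => integrable_finsetSum _ (fun j _ => hFF i j))]
    apply Finset.sum_congr rfl
    intro i _
    rw [integral_finsetSum _ (fun j _ => hFF i j)]
  show ∫ x, (∑ i ∈ Finset.range L, F i x) ^ 2 ∂mm ≤ _
  rw [h2]
  let f : ℕ → ℕ → ℝ := fun i j => if i < L ∧ j < L then ∫ x, F i x * F j x ∂mm else 0
  have hf : ∑ i ∈ Finset.range L, ∑ j ∈ Finset.range L, ∫ x, F i x * F j x ∂mm =
      ∑ i ∈ Finset.range L, ∑ j ∈ Finset.range L, f i j := by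
    apply Finset.sum_congr rfl
    intro i hi
    apply Finset.sum_congr rfl
    intro j hj
    rw [Finset.mem_range] at hi hj
    show _ = if i < L ∧ j < L then _ else _
    rw [if_pos ⟨hi, hj⟩]
  rw [hf]
  have key : ∀ i j, i ≤ j → j < L → ∫ x, F i x * F j x ∂mm ≤ 8 * q ^ (j - i) := by
    intro i j hij hj
    obtain ⟨d, rfl⟩ := Nat.exists_eq_add_of_le' hij
    rw [Nat.add_sub_cancel]
    have := pair φ1 h1 π hπ l hφ q hq hscr w w' hw hw' b b' a a' n i d (by omega)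
    exact le_trans (le_abs_self _) this
  have hpos : ∀ d, 0 ≤ 8 * q ^ d := fun d => by positivity
  have h3 := pair_sum L (fun d => 8 * q ^ d) hpos f
    (fun i j hij => by
      show (if i < L ∧ j < L then _ else _) ≤ _
      split_ifs with h
      · have := key j i hij h.1
        calc ∫ x, F i x * F j x ∂mm = ∫ x, F j x * F i x ∂mm := by
              congr 1
              funext x
              ring
          _ ≤ _ := this
      · exact hpos _)
    (fun i j hij => by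
      show (if i < L ∧ j < L then _ else _) ≤ _
      split_ifs with h
      · exact key i j hij h.2
      · exact hpos _)
  refine le_trans h3 ?_
  have h4 : ∑ d ∈ Finset.range L, 8 * q ^ d ≤ 8 * (1 / (1 - q)) := by
    rw [← Finset.mul_sum]
    apply mul_le_mul_of_nonneg_left _ (by norm_num)
    rw [one_div, ← tsum_geometric_of_lt_one hq hq1]
    exact (summable_geometric_of_lt_one hq hq1).sum_le_tsum _ (fun _ _ => by positivity)
  have hq2 : 0 < 1 - q := by linarith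
  calc 2 * (L : ℝ) * ∑ d ∈ Finset.range L, 8 * q ^ d ≤ 2 * (L : ℝ) * (8 * (1 / (1 - q))) := by gcongr
    _ = 16 * L / (1 - q) := by ring

end

end Pool.Agent.X182.SM
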