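import Mathlib
import Pool.Agent.X182.SM.C

set_option autoImplicit false
set_option linter.unusedSectionVars false
set_option linter.unusedVariables false

/-!
The main inequality.
-/

namespace Pool.Agent.X182.SM

open MeasureTheory Set Filter Topology
open scoped ENNReal symmDiff
open Pool.H359R3 Pool.H359R3.WH Pool.H359R3.MX

/-- iterated fibre maps -/
def Gn (G : XX → ℝ → ℝ) : ℕ → XX → ℝ → ℝ
  | 0, _, y => y
  | (n + 1), x, y => G ((sh : XX → XX)^[n] x) (Gn G n x y)

theorem Gn_add (G : XX → ℝ → ℝ) (a b : ℕ) (x : XX) (y : ℝ) :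
    Gn G (a + b) x y = Gn G a ((sh : XX → XX)^[b] x) (Gn G b x y) := by
  induction a with
  | zero => rw [Nat.zero_add]; rfl
  | succ a ih =>
    rw [Nat.add_right_comm]
    show G ((sh : XX → XX)^[a + b] x) (Gn G (a + b) x y) = G ((sh : XX → XX)^[a] ((sh : XX → XX)^[b] x)) _
    rw [ih, Function.iterate_add_apply]

theorem shm (j : ℕ) : Measurable ((sh : XX → XX)^[j]) := sh.measurable.iterate j

theorem Gn_meas (G : XX → ℝ → ℝ) (hG : Measurable (fun z : XX × ℝ => G z.1 z.2)) (n : ℕ) :
    Measurable (fun z : XX × ℝ => Gn G n z.1 z.2) := by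
  induction n with
  | zero => exact measurable_snd
  | succ n ih => exact hG.comp (((shm n).comp measurable_fst).prodMk ih)

theorem Gn_mp (G : XX → ℝ → ℝ) (hmp : ∀ᵐ x ∂mm, MeasurePreserving (G x) lam lam) (n : ℕ) :
    ∀ᵐ x ∂mm, MeasurePreserving (Gn G n x) lam lam := by
  induction n with
  | zero => exact Eventually.of_forall fun x => MeasurePreserving.id _
  | succ n ih =>
    have h1 := (sh_mp.iterate n).quasiMeasurePreserving.ae hmp
    filter_upwards [ih, h1] with x hx1 hx2
    exact hx2.comp hx1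

/-- the iterated skew product -/
def Kn (G : XX → ℝ → ℝ) (n : ℕ) (z : XX × ℝ) : XX × ℝ := ((sh : XX → XX)^[n] z.1, Gn G n z.1 z.2)

theorem Kn_mp (G : XX → ℝ → ℝ) (hG : Measurable (fun z : XX × ℝ => G z.1 z.2))
    (hmp : ∀ᵐ x ∂mm, MeasurePreserving (G x) lam lam) (n : ℕ) :
    MeasurePreserving (Kn G n) (mm.prod lam) (mm.prod lam) :=
  MeasurePreserving.skew_product (μc := lam) (μd := lam) (sh_mp.iterate n) (g := fun x y => Gn G n x y)
    (Gn_meas G hG n) ((Gn_mp G hmp n).mono fun x hx => hx.map_eq)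

section fin
variable {N : ℕ} [NeZero N]

/-- the finite inequality -/
theorem fin_ineq (w w' : Fin N → ℝ) (hw : ∀ b, |w b| ≤ 1) (hw' : ∀ b, |w' b| ≤ 1) (hs : ∑ b, w b = 0)
    (W : Fin N → Fin N → ℝ) (hW0 : ∀ b a, 0 ≤ W b a) (hW1 : ∀ b, ∑ a, W b a = 1 / N)
    (σ τ : ℕ → Equiv.Perm (Fin N)) (L : ℕ) :
    ∑ i ∈ Finset.range L, (∑ b, ∑ a, W b a * (w (σ i b) * w' (τ i a))) ^ 2 ≤
      (∑ b, ∑ a, ∑ b', ∑ a', |∑ i ∈ Finset.range L, FF w w' b b' a a' (σ i) (τ i)|) + L * (2 / N) := by
  have hN : (0 : ℝ) < N := by exact_mod_cast NeZero.pos N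
  have hWle : ∀ b a, W b a ≤ 1 := by
    intro b a
    have h1 : W b a ≤ ∑ a, W b a := Finset.single_le_sum (fun a _ => hW0 b a) (Finset.mem_univ a)
    rw [hW1] at h1
    have h2 : 1 / (N : ℝ) ≤ 1 := by
      rw [div_le_one hN]
      exact_mod_cast (NeZero.one_le : 1 ≤ N)
    linarith
  have h1 : ∀ i, (∑ b, ∑ a, W b a * (w (σ i b) * w' (τ i a))) ^ 2 =
      ∑ b, ∑ a, ∑ b', ∑ a', W b a * W b' a' * (FF w w' b b' a a' (σ i) (τ i) + EE w b b' * EE w' a a') := by
    intro i
    rw [sq, Finset.sum_mul]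
    apply Finset.sum_congr rfl
    intro b _
    rw [Finset.sum_mul]
    apply Finset.sum_congr rfl
    intro a _
    rw [Finset.mul_sum]
    apply Finset.sum_congr rfl
    intro b' _
    rw [Finset.mul_sum]
    apply Finset.sum_congr rfl
    intro a' _
    unfold FF
    ring
  rw [Finset.sum_congr rfl (fun i _ => h1 i)]
  have h2 : ∑ i ∈ Finset.range L, ∑ b, ∑ a, ∑ b', ∑ a', W b a * W b' a' *
      (FF w w' b b' a a' (σ i) (τ i) + EE w b b' * EE w' a a') =
      ∑ b, ∑ a, ∑ b', ∑ a', (W b a * W b' a' * (∑ i ∈ Finset.range L, FF w w' b b' a a' (σ i) (τ i)) +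
        L * (W b a * W b' a' * (EE w b b' * EE w' a a'))) := by
    rw [Finset.sum_comm]
    apply Finset.sum_congr rfl
    intro b _
    rw [Finset.sum_comm]
    apply Finset.sum_congr rfl
    intro a _
    rw [Finset.sum_comm]
    apply Finset.sum_congr rfl
    intro b' _
    rw [Finset.sum_comm]
    apply Finset.sum_congr rfl
    intro a' _
    rw [← Finset.mul_sum, Finset.sum_add_distrib, Finset.sum_const, Finset.card_range, nsmul_eq_mul]
    ring
  rw [h2]
  have h3 : ∀ b a b' a', W b a * W b' a' * (∑ i ∈ Finset.range L, FF w w' b b' a a' (σ i) (τ i)) +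
        L * (W b a * W b' a' * (EE w b b' * EE w' a a')) ≤
      |∑ i ∈ Finset.range L, FF w w' b b' a a' (σ i) (τ i)| + L * (W b a * W b' a' * |EE w b b'|) := by
    intro b a b' a'
    have e0 : 0 ≤ W b a * W b' a' := mul_nonneg (hW0 _ _) (hW0 _ _)
    have e1 : W b a * W b' a' ≤ 1 := mul_le_one₀ (hWle _ _) (hW0 _ _) (hWle _ _)
    have e2 : W b a * W b' a' * (∑ i ∈ Finset.range L, FF w w' b b' a a' (σ i) (τ i)) ≤
        |∑ i ∈ Finset.range L, FF w w' b b' a a' (σ i) (τ i)| := by
      calc _ ≤ W b a * W b' a' * |∑ i ∈ Finset.range L, FF w w' b b' a a' (σ i) (τ i)| :=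
            mul_le_mul_of_nonneg_left (le_abs_self _) e0
        _ ≤ 1 * _ := mul_le_mul_of_nonneg_right e1 (abs_nonneg _)
        _ = _ := one_mul _
    have e3 : EE w b b' * EE w' a a' ≤ |EE w b b'| := by
      calc _ ≤ |EE w b b' * EE w' a a'| := le_abs_self _
        _ = |EE w b b'| * |EE w' a a'| := abs_mul _ _
        _ ≤ |EE w b b'| * 1 := mul_le_mul_of_nonneg_left (EE_abs w' hw' _ _) (abs_nonneg _)
        _ = _ := mul_one _
    have e4 : (L : ℝ) * (W b a * W b' a' * (EE w b b' * EE w' a a')) ≤ L * (W b a * W b' a' * |EE w b b'|) := by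
      gcongr
    linarith
  calc _ ≤ ∑ b, ∑ a, ∑ b', ∑ a', (|∑ i ∈ Finset.range L, FF w w' b b' a a' (σ i) (τ i)| +
        L * (W b a * W b' a' * |EE w b b'|)) := by
        apply Finset.sum_le_sum; intro b _
        apply Finset.sum_le_sum; intro a _
        apply Finset.sum_le_sum; intro b' _
        apply Finset.sum_le_sum; intro a' _
        exact h3 b a b' a'
    _ = (∑ b, ∑ a, ∑ b', ∑ a', |∑ i ∈ Finset.range L, FF w w' b b' a a' (σ i) (τ i)|) +
        L * ∑ b, ∑ b', (1 / N) * (1 / N) * |EE w b b'| := by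
        simp only [Finset.sum_add_distrib]
        congr 1
        rw [Finset.mul_sum]
        apply Finset.sum_congr rfl
        intro b _
        rw [Finset.sum_comm, Finset.mul_sum]
        apply Finset.sum_congr rfl
        intro b' _
        have e5 : ∀ a, ∑ a', (L : ℝ) * (W b a * W b' a' * |EE w b b'|) = L * (W b a * (1 / N) * |EE w b b'|) := by
          intro a
          rw [← hW1 b', Finset.mul_sum, Finset.sum_mul, Finset.mul_sum]
        rw [Finset.sum_congr rfl (fun a _ => e5 a), ← Finset.mul_sum]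
        congr 1
        rw [← Finset.sum_mul, ← Finset.sum_mul, hW1]
    _ ≤ _ := by
        have e6 : ∑ b, ∑ b', (1 / (N : ℝ)) * (1 / N) * |EE w b b'| ≤ 2 / N := by
          have e7 : ∑ b, ∑ b', (1 / (N : ℝ)) * (1 / N) * |EE w b b'| =
              (1 / (N : ℝ)) * (1 / N) * ∑ b, ∑ b', |EE w b b'| := by
            rw [Finset.mul_sum]
            apply Finset.sum_congr rfl
            intro b _
            rw [Finset.mul_sum]
          rw [e7]
          calc _ ≤ (1 / (N : ℝ)) * (1 / N) * (2 * N) :=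
                mul_le_mul_of_nonneg_left (EE_sum w hw hs) (by positivity)
            _ = 2 / N := by field_simp
        gcongr

theorem int_lab2 (h : Fin N → Fin N → ℝ) (B A : ℝ → Fin N) (hB : Measurable B) (hA : Measurable A) :
    ∫ y, h (B y) (A y) ∂lam = ∑ b, ∑ a, lam.real {y | B y = b ∧ A y = a} * h b a := by
  classical
  have hm : ∀ b a, MeasurableSet {y | B y = b ∧ A y = a} := fun b a =>
    (hB (measurableSet_singleton b)).inter (hA (measurableSet_singleton a))
  have h1 : (fun y => h (B y) (A y)) = fun y => ∑ b, ∑ a, {y | B y = b ∧ A y = a}.indicator (fun _ => h b a) y := by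
    funext y
    rw [Finset.sum_eq_single (B y), Finset.sum_eq_single (A y)]
    · rw [indicator_of_mem (show y ∈ {z | B z = B y ∧ A z = A y} from ⟨rfl, rfl⟩)]
    · intro a _ ha
      rw [indicator_of_notMem]
      exact fun h => ha h.2.symm
    · intro h; exact absurd (Finset.mem_univ _) h
    · intro b _ hb
      apply Finset.sum_eq_zero
      intro a _
      rw [indicator_of_notMem]
      exact fun h => hb h.1.symm
    · intro h; exact absurd (Finset.mem_univ _) h
  rw [h1, integral_finsetSum]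
  · apply Finset.sum_congr rfl
    intro b _
    rw [integral_finsetSum]
    · apply Finset.sum_congr rfl
      intro a _
      rw [integral_indicator_const _ (hm b a), smul_eq_mul]
    · intro a _
      exact (integrable_const _).indicator (hm b a)
  · intro b _
    refine integrable_finsetSum _ (fun a _ => (integrable_const _).indicator (hm b a))

theorem lab_meas_real (b : Fin N) : lam.real {y | flf N y = b} = 1 / N := by
  classical
  have hm : MeasurableSet {y | flf N y = b} := (flf_meas N) (measurableSet_singleton b)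
  have h1 := int_lab (fun c : Fin N => if c = b then (1 : ℝ) else 0)
  have h2 : (fun y => if flf N y = b then (1 : ℝ) else 0) = {y | flf N y = b}.indicator 1 := by
    funext y
    by_cases h : flf N y = b
    · rw [if_pos h, indicator_of_mem (show y ∈ {y | flf N y = b} from h)]
      rfl
    · rw [if_neg h, indicator_of_notMem (show y ∉ {y | flf N y = b} from h)]
  rw [h2, integral_indicator_one hm] at h1
  rw [h1]
  simp

end fin

section
variable {N : ℕ} [NeZero N]

/-- the bad set -/
def bad (G : XX → ℝ → ℝ) (Φ : XX → Equiv.Perm (Fin N)) (n : ℕ) : Set (XX × ℝ) :=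
  {z | flf N (Gn G n z.1 z.2) ≠ coc sh Φ n z.1 (flf N z.2)}

theorem bad_meas (G : XX → ℝ → ℝ) (hG : Measurable (fun z : XX × ℝ => G z.1 z.2)) (Φ : XX → Equiv.Perm (Fin N))
    (hΦ : Ms Φ) (n : ℕ) : MeasurableSet (bad G Φ n) := by
  have h1 : Measurable (fun z : XX × ℝ => coc sh Φ n z.1 (flf N z.2)) :=
    (meas_unc (fun x => coc sh Φ n x) (coc_ms sh sh.measurable Φ hΦ n)).comp
      (measurable_fst.prodMk ((flf_meas N).comp measurable_snd))
  have h2 : Measurable (fun z : XX × ℝ => flf N (Gn G n z.1 z.2)) := (flf_meas N).comp (Gn_meas G hG n)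
  exact (measurableSet_eq_fun h2 h1).compl

theorem bad_le (G : XX → ℝ → ℝ) (hG : Measurable (fun z : XX × ℝ => G z.1 z.2))
    (hmp : ∀ᵐ x ∂mm, MeasurePreserving (G x) lam lam) (Φ : XX → Equiv.Perm (Fin N)) (hΦ : Ms Φ) (δ : ℝ)
    (hδ : (mm.prod lam).real {z | flf N (G z.1 z.2) ≠ Φ z.1 (flf N z.2)} ≤ δ) (n : ℕ) :
    (mm.prod lam).real (bad G Φ n) ≤ n * δ := by
  induction n with
  | zero =>
    have : bad G Φ 0 = ∅ := by
      ext z
      simp only [mem_empty_iff_false, iff_false]
      intro h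
      exact h rfl
    rw [this]
    simp
  | succ n ih =>
    have hb1 : MeasurableSet {z : XX × ℝ | flf N (G z.1 z.2) ≠ Φ z.1 (flf N z.2)} := by
      have h1 : Measurable (fun z : XX × ℝ => Φ z.1 (flf N z.2)) :=
        (meas_unc (fun x => Φ x) hΦ).comp (measurable_fst.prodMk ((flf_meas N).comp measurable_snd))
      have h2 : Measurable (fun z : XX × ℝ => flf N (G z.1 z.2)) := (flf_meas N).comp hG
      exact (measurableSet_eq_fun h2 h1).compl
    have hsub : bad G Φ (n + 1) ⊆ bad G Φ n ∪ Kn G n ⁻¹' {z | flf N (G z.1 z.2) ≠ Φ z.1 (flf N z.2)} := by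
      intro z hz
      by_contra hc
      rw [mem_union, not_or] at hc
      have h1 : flf N (Gn G n z.1 z.2) = coc sh Φ n z.1 (flf N z.2) := not_not.1 hc.1
      have h2 : flf N (G ((sh : XX → XX)^[n] z.1) (Gn G n z.1 z.2)) =
          Φ ((sh : XX → XX)^[n] z.1) (flf N (Gn G n z.1 z.2)) := not_not.1 hc.2
      apply hz
      show flf N (G ((sh : XX → XX)^[n] z.1) (Gn G n z.1 z.2)) = coc sh Φ (n + 1) z.1 (flf N z.2)
      rw [h2, h1, coc_succ]
      rfl
    have h3 := mp_real' (Kn_mp G hG hmp n) hb1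
    calc _ ≤ (mm.prod lam).real (bad G Φ n ∪ Kn G n ⁻¹' {z | flf N (G z.1 z.2) ≠ Φ z.1 (flf N z.2)}) :=
          measureReal_mono hsub (measure_ne_top _ _)
      _ ≤ _ := measureReal_union_le _ _
      _ ≤ n * δ + δ := by rw [h3]; exact add_le_add ih hδ
      _ = _ := by push_cast; ring

/-- correlation in the fibres -/
noncomputable def cc (G : XX → ℝ → ℝ) (w w' : Fin N → ℝ) (n : ℕ) (x : XX) : ℝ :=
  ∫ y, w (flf N (Gn G n x y)) * w' (flf N y) ∂lam

/-- its approximation -/
noncomputable def dd (G : XX → ℝ → ℝ) (Φ : XX → Equiv.Perm (Fin N)) (w w' : Fin N → ℝ) (n i : ℕ) (x : XX) : ℝ :=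
  ∫ y, w (coc sh Φ i ((sh : XX → XX)^[n] x) (flf N (Gn G n x y))) * w' (coc sh Φ i x (flf N y)) ∂lam

theorem int_abs_le {Z : Type*} [MeasurableSpace Z] (m : Measure Z) [IsProbabilityMeasure m] (f : Z → ℝ) (B : ℝ)
    (hB : ∀ z, |f z| ≤ B) : |∫ z, f z ∂m| ≤ B := by
  have := norm_integral_le_of_norm_le_const (μ := m) (f := f) (C := B)
    (Eventually.of_forall fun z => by rw [Real.norm_eq_abs]; exact hB z)
  simpa using this

theorem ww_abs (w w' : Fin N → ℝ) (hw : ∀ b, |w b| ≤ 1) (hw' : ∀ b, |w' b| ≤ 1) (b a : Fin N) :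
    |w b * w' a| ≤ 1 := by
  rw [abs_mul]
  exact mul_le_one₀ (hw _) (abs_nonneg _) (hw' _)

theorem compare (G : XX → ℝ → ℝ) (hG : Measurable (fun z : XX × ℝ => G z.1 z.2))
    (hmp : ∀ᵐ x ∂mm, MeasurePreserving (G x) lam lam) (Φ : XX → Equiv.Perm (Fin N)) (hΦ : Ms Φ) (δ : ℝ)
    (hδ : (mm.prod lam).real {z | flf N (G z.1 z.2) ≠ Φ z.1 (flf N z.2)} ≤ δ)
    (w w' : Fin N → ℝ) (hw : ∀ b, |w b| ≤ 1) (hw' : ∀ b, |w' b| ≤ 1) (n i : ℕ) :
    ∫ x, cc G w w' n x ^ 2 ∂mm ≤ ∫ x, dd G Φ w w' n i x ^ 2 ∂mm + 8 * (i * δ) := by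
  classical
  have hGn := fun k => Gn_meas G hG k
  have hcm : StronglyMeasurable (cc G w w' n) := by
    have : Measurable (fun z : XX × ℝ => w (flf N (Gn G n z.1 z.2)) * w' (flf N z.2)) :=
      (((measurable_of_countable w).comp ((flf_meas N).comp (hGn n)))).mul
        ((measurable_of_countable w').comp ((flf_meas N).comp measurable_snd))
    exact this.stronglyMeasurable.integral_prod_right'
  have hcoc : ∀ k, Measurable (fun z : XX × Fin N => coc sh Φ k z.1 z.2) := fun k =>
    meas_unc (fun x => coc sh Φ k x) (coc_ms sh sh.measurable Φ hΦ k)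
  have hdz : Measurable (fun z : XX × ℝ => w (coc sh Φ i ((sh : XX → XX)^[n] z.1) (flf N (Gn G n z.1 z.2))) *
      w' (coc sh Φ i z.1 (flf N z.2))) := by
    refine Measurable.mul ?_ ?_
    · exact (measurable_of_countable w).comp ((hcoc i).comp (((shm n).comp measurable_fst).prodMk
        ((flf_meas N).comp (hGn n))))
    · exact (measurable_of_countable w').comp ((hcoc i).comp (measurable_fst.prodMk
        ((flf_meas N).comp measurable_snd)))
  have hdm : StronglyMeasurable (dd G Φ w w' n i) := hdz.stronglyMeasurable.integral_prod_right'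
  have hca : ∀ x, |cc G w w' n x| ≤ 1 := fun x => int_abs_le lam _ 1 (fun y => ww_abs w w' hw hw' _ _)
  have hda : ∀ x, |dd G Φ w w' n i x| ≤ 1 := fun x => int_abs_le lam _ 1 (fun y => ww_abs w w' hw hw' _ _)
  -- invariance
  have h1 : ∫ x, cc G w w' n x ^ 2 ∂mm = ∫ x, cc G w w' n ((sh : XX → XX)^[i] x) ^ 2 ∂mm := by
    have e1 := (sh_mp.iterate i).map_eq
    conv_lhs => rw [← e1]
    rw [integral_map (shm i).aemeasurable (hcm.measurable.pow_const 2).aestronglyMeasurable]
  have hHz : Measurable (fun z : XX × ℝ => w (flf N (Gn G (n + i) z.1 z.2)) * w' (flf N (Gn G i z.1 z.2))) :=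
    ((measurable_of_countable w).comp ((flf_meas N).comp (hGn (n + i)))).mul
      ((measurable_of_countable w').comp ((flf_meas N).comp (hGn i)))
  have h2 : ∀ᵐ x ∂mm, cc G w w' n ((sh : XX → XX)^[i] x) =
      ∫ y, w (flf N (Gn G (n + i) x y)) * w' (flf N (Gn G i x y)) ∂lam := by
    filter_upwards [Gn_mp G hmp i] with x hx
    have e1 := hx.map_eq
    unfold cc
    conv_lhs => rw [← e1]
    rw [integral_map hx.measurable.aemeasurable]
    · apply integral_congr_ae
      refine Eventually.of_forall fun y => ?_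
      show w (flf N (Gn G n ((sh : XX → XX)^[i] x) (Gn G i x y))) * _ = _
      rw [← Gn_add]
    · have : Measurable (fun y : ℝ => w (flf N (Gn G n ((sh : XX → XX)^[i] x) y)) * w' (flf N y)) :=
        ((measurable_of_countable w).comp ((flf_meas N).comp ((hGn n).comp (measurable_const.prodMk measurable_id)))).mul
          ((measurable_of_countable w').comp (flf_meas N))
      exact this.aestronglyMeasurable
  let H : XX × ℝ → ℝ := fun z => w (flf N (Gn G (n + i) z.1 z.2)) * w' (flf N (Gn G i z.1 z.2)) -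
    w (coc sh Φ i ((sh : XX → XX)^[n] z.1) (flf N (Gn G n z.1 z.2))) * w' (coc sh Φ i z.1 (flf N z.2))
  have hHm : Measurable H := hHz.sub hdz
  have hHa : ∀ z, |H z| ≤ 2 := by
    intro z
    have e1 := ww_abs w w' hw hw' (flf N (Gn G (n + i) z.1 z.2)) (flf N (Gn G i z.1 z.2))
    have e2 := ww_abs w w' hw hw' (coc sh Φ i ((sh : XX → XX)^[n] z.1) (flf N (Gn G n z.1 z.2)))
      (coc sh Φ i z.1 (flf N z.2))
    show |_ - _| ≤ 2
    rw [abs_le] at *
    constructor <;> linarith
  have hbm := bad_meas G hG Φ hΦ i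
  have hKm := (Kn_mp G hG hmp n).measurable
  have hHle : ∀ z, |H z| ≤ (bad G Φ i).indicator (fun _ => (2 : ℝ)) z +
      (Kn G n ⁻¹' bad G Φ i).indicator (fun _ => (2 : ℝ)) z := by
    intro z
    by_cases hz1 : z ∈ bad G Φ i
    · rw [indicator_of_mem hz1]
      have : 0 ≤ (Kn G n ⁻¹' bad G Φ i).indicator (fun _ => (2 : ℝ)) z := indicator_nonneg (fun _ _ => by norm_num) _
      linarith [hHa z]
    · by_cases hz2 : z ∈ Kn G n ⁻¹' bad G Φ i
      · rw [indicator_of_mem hz2, indicator_of_notMem hz1]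
        linarith [hHa z]
      · rw [indicator_of_notMem hz1, indicator_of_notMem hz2]
        have e1 : flf N (Gn G i z.1 z.2) = coc sh Φ i z.1 (flf N z.2) := not_not.1 hz1
        have e2 : flf N (Gn G i ((sh : XX → XX)^[n] z.1) (Gn G n z.1 z.2)) =
            coc sh Φ i ((sh : XX → XX)^[n] z.1) (flf N (Gn G n z.1 z.2)) := not_not.1 hz2
        have e3 : H z = 0 := by
          show _ - _ = 0
          rw [Nat.add_comm n i, Gn_add, e1, e2, sub_self]
        rw [e3]
        simp
  have hHi : Integrable H (mm.prod lam) := integrable_of_abs_le _ hHm 2 hHa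
  have h3 : ∫ x, |cc G w w' n ((sh : XX → XX)^[i] x) - dd G Φ w w' n i x| ∂mm ≤ 4 * (i * δ) := by
    have e1 : ∫ x, |cc G w w' n ((sh : XX → XX)^[i] x) - dd G Φ w w' n i x| ∂mm ≤
        ∫ x, ∫ y, |H (x, y)| ∂lam ∂mm := by
      apply integral_mono_ae
      · refine integrable_of_abs_le mm ((hcm.measurable.comp (shm i)).sub hdm.measurable).abs 2 (fun x => ?_)
        rw [abs_abs]
        have e1 := hca ((sh : XX → XX)^[i] x)
        have e2 := hda x
        rw [abs_le] at *
        constructor <;> linarith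
      · exact hHi.abs.integral_prod_left
      · filter_upwards [h2] with x hx
        have e3 : cc G w w' n ((sh : XX → XX)^[i] x) - dd G Φ w w' n i x = ∫ y, H (x, y) ∂lam := by
          rw [hx]
          unfold dd
          rw [← integral_sub]
          · exact integrable_of_abs_le lam (hHz.comp (measurable_const.prodMk measurable_id)) 1
              (fun y => ww_abs w w' hw hw' _ _)
          · exact integrable_of_abs_le lam (hdz.comp (measurable_const.prodMk measurable_id)) 1
              (fun y => ww_abs w w' hw hw' _ _)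
        show |_| ≤ _
        rw [e3]
        exact abs_integral_le_integral_abs
    refine le_trans e1 ?_
    rw [← integral_prod _ hHi.abs]
    have e2 : ∫ z, |H z| ∂(mm.prod lam) ≤ ∫ z, ((bad G Φ i).indicator (fun _ => (2 : ℝ)) z +
        (Kn G n ⁻¹' bad G Φ i).indicator (fun _ => (2 : ℝ)) z) ∂(mm.prod lam) := by
      apply integral_mono hHi.abs _ hHle
      exact ((integrable_const _).indicator hbm).add ((integrable_const _).indicator (hKm hbm))
    rw [integral_add ((integrable_const _).indicator hbm) ((integrable_const _).indicator (hKm hbm)),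
      integral_indicator_const _ hbm, integral_indicator_const _ (hKm hbm), mp_real' (Kn_mp G hG hmp n) hbm] at e2
    have e3 := bad_le G hG hmp Φ hΦ δ hδ i
    simp only [smul_eq_mul] at e2
    show ∫ z, |H z| ∂(mm.prod lam) ≤ _
    linarith
  rw [h1]
  have hci2 : Integrable (fun x => cc G w w' n ((sh : XX → XX)^[i] x) ^ 2) mm :=
    integrable_of_abs_le mm ((hcm.measurable.comp (shm i)).pow_const 2) 1 (fun x => by
      rw [abs_pow]
      exact pow_le_one₀ (abs_nonneg _) (hca _))
  have hdi2 : Integrable (fun x => dd G Φ w w' n i x ^ 2) mm :=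
    integrable_of_abs_le mm (hdm.measurable.pow_const 2) 1 (fun x => by
      rw [abs_pow]
      exact pow_le_one₀ (abs_nonneg _) (hda _))
  have hab : Integrable (fun x => |cc G w w' n ((sh : XX → XX)^[i] x) - dd G Φ w w' n i x|) mm := by
    refine integrable_of_abs_le mm ((hcm.measurable.comp (shm i)).sub hdm.measurable).abs 2 (fun x => ?_)
    rw [abs_abs]
    have e1 := hca ((sh : XX → XX)^[i] x)
    have e2 := hda x
    rw [abs_le] at *
    constructor <;> linarith
  have h4 : ∫ x, cc G w w' n ((sh : XX → XX)^[i] x) ^ 2 ∂mm ≤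
      ∫ x, (dd G Φ w w' n i x ^ 2 + 2 * |cc G w w' n ((sh : XX → XX)^[i] x) - dd G Φ w w' n i x|) ∂mm := by
    apply integral_mono hci2 (hdi2.add (hab.const_mul 2))
    intro x
    show cc G w w' n ((sh : XX → XX)^[i] x) ^ 2 ≤
      dd G Φ w w' n i x ^ 2 + 2 * |cc G w w' n ((sh : XX → XX)^[i] x) - dd G Φ w w' n i x|
    have e1 := hca ((sh : XX → XX)^[i] x)
    have e2 := hda x
    have e3 : cc G w w' n ((sh : XX → XX)^[i] x) ^ 2 - dd G Φ w w' n i x ^ 2 ≤
        |cc G w w' n ((sh : XX → XX)^[i] x) - dd G Φ w w' n i x| *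
          |cc G w w' n ((sh : XX → XX)^[i] x) + dd G Φ w w' n i x| := by
      rw [← abs_mul]
      refine le_trans (le_of_eq ?_) (le_abs_self _)
      ring
    have e4 : |cc G w w' n ((sh : XX → XX)^[i] x) + dd G Φ w w' n i x| ≤ 2 := by
      rw [abs_le] at *
      constructor <;> linarith
    have e5 : |cc G w w' n ((sh : XX → XX)^[i] x) - dd G Φ w w' n i x| *
          |cc G w w' n ((sh : XX → XX)^[i] x) + dd G Φ w w' n i x| ≤
          |cc G w w' n ((sh : XX → XX)^[i] x) - dd G Φ w w' n i x| * 2 :=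
      mul_le_mul_of_nonneg_left e4 (abs_nonneg _)
    linarith
  rw [integral_add hdi2 (hab.const_mul 2), integral_const_mul] at h4
  linarith

theorem core (φ1 : XX → Equiv.Perm (Fin N)) (h1 : Ms φ1) (π : ℝ → Equiv.Perm (Fin N)) (hπ : Ms π) (l : ℕ)
    (hφ : ∀ t : ℤ, Ind φ1 (t, l)) (q : ℝ) (hq : 0 ≤ q) (hq1 : q < 1)
    (hscr : ∀ f : Equiv.Perm (Fin N) → ℝ, ∑ σ, f σ = 0 → ∀ α β : Equiv.Perm (Fin N),
      ∫ t, f (α * π t * β) ∂lam = q * f (α * β))
    (G : XX → ℝ → ℝ) (hG : Measurable (fun z : XX × ℝ => G z.1 z.2))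
    (hmp : ∀ᵐ x ∂mm, MeasurePreserving (G x) lam lam) (δ : ℝ) (hδ0 : 0 ≤ δ)
    (hδ : (mm.prod lam).real {z | flf N (G z.1 z.2) ≠ Phi φ1 π l z.1 (flf N z.2)} ≤ δ)
    (w w' : Fin N → ℝ) (hw : ∀ b, |w b| ≤ 1) (hw' : ∀ b, |w' b| ≤ 1) (hs : ∑ b, w b = 0)
    (n L : ℕ) (hL : 0 < L) (hn : L ≤ n) :
    ∫ x, cc G w w' n x ^ 2 ∂mm ≤
      (N : ℝ) ^ 4 * Real.sqrt (16 * L / (1 - q)) / L + 2 / N + 8 * (L * δ) := by
  classical
  set Φ := Phi φ1 π l with hΦd
  have hΦ : Ms Φ := Phi_ms φ1 h1 π hπ l
  have hLr : (0 : ℝ) < L := by exact_mod_cast hL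
  have hNr : (0 : ℝ) < N := by exact_mod_cast NeZero.pos N
  have hGn := fun k => Gn_meas G hG k
  let F : Fin N → Fin N → Fin N → Fin N → XX → ℝ := fun b a b' a' x =>
    ∑ i ∈ Finset.range L, FF w w' b b' a a' (coc sh Φ i ((sh : XX → XX)^[n] x)) (coc sh Φ i x)
  have hc : ∀ k s, Ms (fun x => coc sh Φ k ((sh : XX → XX)^[s] x)) := fun k s =>
    ms_pre _ (coc_ms sh sh.measurable _ hΦ k) _ (shm s)
  have hc0 : ∀ k, Ms (fun x => coc sh Φ k x) := fun k => coc_ms sh sh.measurable _ hΦ k
  have hprm : ∀ (g : Fin N → ℝ) (ψ : XX → Equiv.Perm (Fin N)), Ms ψ → ∀ c c', Measurable fun x => g (ψ x c) * g (ψ x c') :=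
    fun g ψ hψ c c' => ((measurable_of_countable g).comp (hψ c)).mul ((measurable_of_countable g).comp (hψ c'))
  have hFm : ∀ b a b' a', Measurable (F b a b' a') := fun b a b' a' =>
    Finset.measurable_sum _ (fun i _ => ((hprm w _ (hc i n) b b').mul (hprm w' _ (hc0 i) a a')).sub measurable_const)
  have hFa : ∀ b a b' a' x, |F b a b' a' x| ≤ 2 * L := by
    intro b a b' a' x
    refine le_trans (Finset.abs_sum_le_sum_abs _ _) ?_
    refine le_trans (Finset.sum_le_sum (fun i _ => FF_abs w w' hw hw' _ _ _ _ _ _)) ?_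
    rw [Finset.sum_const, Finset.card_range, nsmul_eq_mul]
    linarith
  have hFi : ∀ b a b' a', Integrable (fun x => |F b a b' a' x|) mm := fun b a b' a' =>
    integrable_of_abs_le mm (hFm b a b' a').abs (2 * L) (fun x => by rw [abs_abs]; exact hFa _ _ _ _ _)
  have hFq : ∀ b a b' a', ∫ x, |F b a b' a' x| ∂mm ≤ Real.sqrt (16 * L / (1 - q)) := by
    intro b a b' a'
    have e1 := sq_int_le mm (fun x => |F b a b' a' x|) (hFm b a b' a').abs (2 * L)
      (fun x => by rw [abs_abs]; exact hFa _ _ _ _ _)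
    have e2 := quad φ1 h1 π hπ l hφ q hq hq1 hscr w w' hw hw' b b' a a' n L hn
    simp_rw [sq_abs] at e1
    apply Real.le_sqrt_of_sq_le
    exact le_trans e1 e2
  have hdm : ∀ i, Measurable (dd G Φ w w' n i) := by
    intro i
    have hcoc : ∀ k, Measurable (fun z : XX × Fin N => coc sh Φ k z.1 z.2) := fun k =>
      meas_unc (fun x => coc sh Φ k x) (coc_ms sh sh.measurable Φ hΦ k)
    have hdz : Measurable (fun z : XX × ℝ => w (coc sh Φ i ((sh : XX → XX)^[n] z.1) (flf N (Gn G n z.1 z.2))) *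
        w' (coc sh Φ i z.1 (flf N z.2))) := by
      refine Measurable.mul ?_ ?_
      · exact (measurable_of_countable w).comp ((hcoc i).comp (((shm n).comp measurable_fst).prodMk
          ((flf_meas N).comp (hGn n))))
      · exact (measurable_of_countable w').comp ((hcoc i).comp (measurable_fst.prodMk
          ((flf_meas N).comp measurable_snd)))
    exact (hdz.stronglyMeasurable.integral_prod_right' (ν := lam)).measurable
  have hda : ∀ i x, |dd G Φ w w' n i x| ≤ 1 := fun i x => int_abs_le lam _ 1 (fun y => ww_abs w w' hw hw' _ _)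
  have hdi : ∀ i, Integrable (fun x => dd G Φ w w' n i x ^ 2) mm := fun i =>
    integrable_of_abs_le mm ((hdm i).pow_const 2) 1 (fun x => by
      rw [abs_pow]
      exact pow_le_one₀ (abs_nonneg _) (hda i x))
  -- pointwise inequality
  have hpt : ∀ᵐ x ∂mm, ∑ i ∈ Finset.range L, dd G Φ w w' n i x ^ 2 ≤
      (∑ b, ∑ a, ∑ b', ∑ a', |F b a b' a' x|) + L * (2 / N) := by
    filter_upwards [Gn_mp G hmp n] with x hx
    let B : ℝ → Fin N := fun y => flf N (Gn G n x y)
    have hB : Measurable B := (flf_meas N).comp hx.measurable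
    let W : Fin N → Fin N → ℝ := fun b a => lam.real {y | B y = b ∧ flf N y = a}
    have hWs : ∀ b, ∑ a, W b a = 1 / N := by
      intro b
      have e1 := int_lab2 (fun c a => if c = b then (1 : ℝ) else 0) B (flf N) hB (flf_meas N)
      have e2 : ∑ c, ∑ a, lam.real {y | B y = c ∧ flf N y = a} * (if c = b then (1 : ℝ) else 0) = ∑ a, W b a := by
        rw [Finset.sum_eq_single b]
        · simp [W]
        · intro c _ hcb
          simp [hcb]
        · intro h; exact absurd (Finset.mem_univ _) h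
      rw [e2] at e1
      rw [← e1]
      have e3 : (fun y => if B y = b then (1 : ℝ) else 0) = {y | B y = b}.indicator 1 := by
        funext y
        by_cases h : B y = b
        · rw [if_pos h, indicator_of_mem (show y ∈ {y | B y = b} from h)]
          rfl
        · rw [if_neg h, indicator_of_notMem (show y ∉ {y | B y = b} from h)]
      have hmB : MeasurableSet {y | B y = b} := hB (measurableSet_singleton b)
      rw [e3, integral_indicator_one hmB]
      have e4 : {y | B y = b} = Gn G n x ⁻¹' {y | flf N y = b} := rfl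
      have hmb : MeasurableSet {y | flf N y = b} := (flf_meas N) (measurableSet_singleton b)
      rw [e4, mp_real' hx hmb]
      exact lab_meas_real b
    have hdW : ∀ i, dd G Φ w w' n i x = ∑ b, ∑ a, W b a *
        (w (coc sh Φ i ((sh : XX → XX)^[n] x) b) * w' (coc sh Φ i x a)) := fun i =>
      int_lab2 (fun b a => w (coc sh Φ i ((sh : XX → XX)^[n] x) b) * w' (coc sh Φ i x a)) B (flf N) hB (flf_meas N)
    have e5 := fin_ineq w w' hw hw' hs W (fun b a => measureReal_nonneg) hWs
      (fun i => coc sh Φ i ((sh : XX → XX)^[n] x)) (fun i => coc sh Φ i x) L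
    simp_rw [← hdW] at e5
    exact e5
  have hint : ∑ i ∈ Finset.range L, ∫ x, dd G Φ w w' n i x ^ 2 ∂mm ≤
      (N : ℝ) ^ 4 * Real.sqrt (16 * L / (1 - q)) + L * (2 / N) := by
    rw [← integral_finsetSum _ (fun i _ => hdi i)]
    have hi4 : Integrable (fun x => ∑ b, ∑ a, ∑ b', ∑ a', |F b a b' a' x|) mm :=
      integrable_finsetSum _ fun b _ => integrable_finsetSum _ fun a _ => integrable_finsetSum _ fun b' _ =>
        integrable_finsetSum _ fun a' _ => hFi b a b' a'
    calc _ ≤ ∫ x, ((∑ b, ∑ a, ∑ b', ∑ a', |F b a b' a' x|) + L * (2 / N)) ∂mm :=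
          integral_mono_ae (integrable_finsetSum _ (fun i _ => hdi i)) (hi4.add (integrable_const _)) hpt
      _ = (∑ b, ∑ a, ∑ b', ∑ a', ∫ x, |F b a b' a' x| ∂mm) + L * (2 / N) := by
          rw [integral_add hi4 (integrable_const _)]
          congr 1
          · rw [integral_finsetSum _ (fun b _ => integrable_finsetSum _ fun a _ => integrable_finsetSum _ fun b' _ =>
              integrable_finsetSum _ fun a' _ => hFi b a b' a')]
            apply Finset.sum_congr rfl
            intro b _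
            rw [integral_finsetSum _ (fun a _ => integrable_finsetSum _ fun b' _ =>
              integrable_finsetSum _ fun a' _ => hFi b a b' a')]
            apply Finset.sum_congr rfl
            intro a _
            rw [integral_finsetSum _ (fun b' _ => integrable_finsetSum _ fun a' _ => hFi b a b' a')]
            apply Finset.sum_congr rfl
            intro b' _
            rw [integral_finsetSum _ (fun a' _ => hFi b a b' a')]
          · simp
      _ ≤ (∑ b : Fin N, ∑ a : Fin N, ∑ b' : Fin N, ∑ a' : Fin N, Real.sqrt (16 * L / (1 - q))) + L * (2 / N) := by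
          gcongr with b _ a _ b' _ a' _
          exact hFq b a b' a'
      _ = _ := by
          simp only [Finset.sum_const, Finset.card_univ, Fintype.card_fin, nsmul_eq_mul]
          ring
  have hsum : ∑ i ∈ Finset.range L, ∫ x, cc G w w' n x ^ 2 ∂mm ≤
      ∑ i ∈ Finset.range L, (∫ x, dd G Φ w w' n i x ^ 2 ∂mm + 8 * (L * δ)) := by
    apply Finset.sum_le_sum
    intro i hi
    rw [Finset.mem_range] at hi
    refine le_trans (compare G hG hmp Φ hΦ δ hδ w w' hw hw' n i) ?_
    have : (i : ℝ) ≤ L := by exact_mod_cast hi.le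
    gcongr
  rw [Finset.sum_const, Finset.card_range, nsmul_eq_mul, Finset.sum_add_distrib, Finset.sum_const,
    Finset.card_range, nsmul_eq_mul] at hsum
  have h5 : (L : ℝ) * ∫ x, cc G w w' n x ^ 2 ∂mm ≤
      L * ((N : ℝ) ^ 4 * Real.sqrt (16 * L / (1 - q)) / L + 2 / N + 8 * (L * δ)) := by
    have : (L : ℝ) * ((N : ℝ) ^ 4 * Real.sqrt (16 * L / (1 - q)) / L + 2 / N + 8 * (L * δ)) =
        (N : ℝ) ^ 4 * Real.sqrt (16 * L / (1 - q)) + L * (2 / N) + L * (8 * (L * δ)) := by
      field_simp
    rw [this]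
    linarith
  exact le_of_mul_le_mul_left h5 hLr

end

end Pool.Agent.X182.SM
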