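import Mathlib
import Pool.Agent.X182.SM.D

set_option autoImplicit false
set_option linter.unusedSectionVars false
set_option linter.unusedVariables false

/-!
Approximation by functions of finitely many layers.
-/

namespace Pool.Agent.X182.SM

open MeasureTheory Set Filter Topology
open scoped ENNReal symmDiff
open Pool.H359R3 Pool.H359R3.WH Pool.H359R3.MX

/-- the set does not depend on the layers from `l0` on -/
def Lay (l0 : ℕ) (s : Set XX) : Prop := ∀ (c : ℤ) (l : ℕ), l0 ≤ l → ∀ x t, Function.update x (c, l) t ∈ s ↔ x ∈ s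

theorem layer_set (s : Set XX) (hs : MeasurableSet s) : ∀ η : ℝ, 0 < η →
    ∃ (l0 : ℕ) (t : Set XX), MeasurableSet t ∧ Lay l0 t ∧ mm.real (s ∆ t) < η := by
  have hgen : (inferInstance : MeasurableSpace XX) =
      MeasurableSpace.generateFrom (measurableCylinders (fun _ : ℤ × ℕ => ℝ)) :=
    generateFrom_measurableCylinders.symm
  refine approx_induction mm _ hgen (fun s => ∀ η : ℝ, 0 < η →
    ∃ (l0 : ℕ) (t : Set XX), MeasurableSet t ∧ Lay l0 t ∧ mm.real (s ∆ t) < η) ?_ ?_ ?_ ?_ ?_ s hs
  · intro s hs η hη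
    rw [mem_measurableCylinders] at hs
    obtain ⟨I, S, hS, rfl⟩ := hs
    refine ⟨(I.sup Prod.snd) + 1, cylinder I S, hS.cylinder, ?_, by simpa using hη⟩
    intro c l hl x t
    rw [mem_cylinder, mem_cylinder]
    have : I.restrict (Function.update x (c, l) t) = I.restrict x := by
      funext i
      show Function.update x (c, l) t i.1 = x i.1
      rw [Function.update_of_ne]
      intro h
      have h2 : i.1.2 ≤ I.sup Prod.snd := Finset.le_sup (f := Prod.snd) i.2
      rw [h] at h2
      simp only at h2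
      omega
    rw [this]
  · intro η hη
    exact ⟨0, ∅, MeasurableSet.empty, fun _ _ _ _ _ => Iff.rfl, by simpa using hη⟩
  · intro s _ hP η hη
    obtain ⟨l0, t, ht, hl, h⟩ := hP η hη
    refine ⟨l0, tᶜ, ht.compl, fun c l hcl x u => not_congr (hl c l hcl x u), ?_⟩
    have : sᶜ ∆ tᶜ = s ∆ t := by
      ext z
      simp only [Set.mem_symmDiff, mem_compl_iff]
      tauto
    rw [this]
    exact h
  · intro s t _ _ hP hQ η hη
    obtain ⟨l0, s', hs', hl, h⟩ := hP (η / 2) (by positivity)
    obtain ⟨l0', t', ht', hl', h'⟩ := hQ (η / 2) (by positivity)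
    refine ⟨max l0 l0', s' ∪ t', hs'.union ht', fun c l hcl x u =>
      or_congr (hl c l (le_trans (le_max_left _ _) hcl) x u) (hl' c l (le_trans (le_max_right _ _) hcl) x u), ?_⟩
    refine lt_of_le_of_lt (measureReal_mono (s₂ := (s ∆ s') ∪ (t ∆ t')) (fun z hz => ?_)
      (measure_ne_top _ _)) ?_
    · simp only [mem_union, Set.mem_symmDiff] at hz ⊢
      tauto
    · refine lt_of_le_of_lt (measureReal_union_le _ _) ?_
      linarith
  · intro s hs hap η hη
    obtain ⟨t, ht, hPt, hst⟩ := hap (η / 2) (by positivity)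
    obtain ⟨l0, u, hu, hl, h⟩ := hPt (η / 2) (by positivity)
    refine ⟨l0, u, hu, hl, ?_⟩
    refine lt_of_le_of_lt (le_trans (measureReal_mono (symmDiff_triangle s t _) (measure_ne_top _ _))
      (measureReal_union_le _ _)) ?_
    linarith

theorem layer_fun {N : ℕ} [NeZero N] (φ : XX → Equiv.Perm (Fin N)) (hφ : Ms φ) (η : ℝ) (hη : 0 < η) :
    ∃ (l : ℕ) (φ1 : XX → Equiv.Perm (Fin N)), Ms φ1 ∧ (∀ t : ℤ, Ind φ1 (t, l)) ∧
      mm.real {x | φ x ≠ φ1 x} ≤ η := by
  classical
  set C : ℝ := (Fintype.card (Equiv.Perm (Fin N)) : ℝ) with hC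
  have hC0 : 0 < C := by rw [hC]; exact_mod_cast Fintype.card_pos
  have h1 := fun σ : Equiv.Perm (Fin N) => layer_set {x | φ x = σ} (ms_eq φ hφ σ) (η / C) (by positivity)
  choose l0 t ht hl h using h1
  let sel : (Equiv.Perm (Fin N) → Prop) → Equiv.Perm (Fin N) := fun w => if h : ∃ t, w t then h.choose else 1
  let v : XX → Equiv.Perm (Fin N) → Prop := fun x σ => x ∈ t σ
  have hv : Measurable v := by
    apply measurable_pi_lambda
    intro σ
    exact measurableSet_setOfPred.1 (ht σ)
  refine ⟨Finset.univ.sup l0, fun x => sel (v x), ?_, ?_, ?_⟩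
  · intro a
    exact (measurable_of_countable (fun w : Equiv.Perm (Fin N) → Prop => sel w a)).comp hv
  · intro c x u
    show sel _ = sel _
    congr 1
    funext σ
    apply propext
    exact hl σ c _ (Finset.le_sup (Finset.mem_univ σ)) x u
  · have hsub : {x | φ x ≠ sel (v x)} ⊆ ⋃ σ ∈ (Finset.univ : Finset (Equiv.Perm (Fin N))), ({x | φ x = σ} ∆ t σ) := by
      intro x hx
      by_contra hc
      apply hx
      simp only [mem_iUnion, Finset.mem_univ, exists_prop, true_and, not_exists] at hc
      have key : ∀ σ, φ x = σ ↔ x ∈ t σ := by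
        intro σ
        have h1 := hc σ
        rw [Set.mem_symmDiff] at h1
        push Not at h1
        exact ⟨h1.1, h1.2⟩
      have hex : ∃ σ, v x σ := ⟨φ x, (key _).1 rfl⟩
      show φ x = sel (v x)
      simp only [sel]
      rw [dif_pos hex]
      exact (key _).2 hex.choose_spec
    refine le_trans (measureReal_mono hsub (measure_ne_top _ _)) ?_
    refine le_trans (measureReal_biUnion_finset_le _ _) ?_
    refine le_trans (Finset.sum_le_sum (fun σ _ => (h σ).le)) ?_
    rw [Finset.sum_const, Finset.card_univ, nsmul_eq_mul]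
    apply le_of_eq
    rw [← hC]
    field_simp

end Pool.Agent.X182.SM
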