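import Mathlib
import Pool.Agent.X182.SM.E

set_option autoImplicit false
set_option linter.unusedSectionVars false
set_option linter.unusedVariables false

/-!
Density and openness.
-/

namespace Pool.Agent.X182.SM

open MeasureTheory Set Filter Topology
open scoped ENNReal symmDiff
open Pool.H359R3 Pool.H359R3.WH Pool.H359R3.MX

theorem iter_eq (S : (XX × ℝ) ≃ᵐ (XX × ℝ)) (hS : IsExt mm lam sh S) (n : ℕ) :
    ∀ᵐ z ∂(mm.prod lam), (S : XX × ℝ → XX × ℝ)^[n] z =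
      ((sh : XX → XX)^[n] z.1, Gn (fun x y => (S (x, y)).2) n z.1 z.2) := by
  obtain ⟨hSm, hSe⟩ := hS
  induction n with
  | zero => exact Eventually.of_forall fun z => rfl
  | succ n ih =>
    have h1 := (hSm.iterate n).quasiMeasurePreserving.ae hSe
    filter_upwards [ih, h1] with z hz1 hz2
    rw [Function.iterate_succ_apply', Function.iterate_succ_apply']
    rw [hz1] at hz2 ⊢
    apply Prod.ext
    · exact hz2
    · rfl

theorem local_dense (S : (XX × ℝ) ≃ᵐ (XX × ℝ)) (hS : IsExt mm lam sh S) (r : ℕ) (E : Fin r → Set (XX × ℝ))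
    (hE : ∀ i, MeasurableSet (E i)) (δ : ℝ) (hδ : 0 < δ) (H0 : ℕ) [NeZero H0] (g g' : Fin H0 → ℝ)
    (hg : ∀ b, |g b| ≤ 1) (hg' : ∀ b, |g' b| ≤ 1) (hgs : ∑ b, g b = 0) (ε : ℝ) (hε : 0 < ε) :
    ∃ S0 : (XX × ℝ) ≃ᵐ (XX × ℝ), IsExt mm lam sh S0 ∧
      (∀ i, (mm.prod lam).real ((S ⁻¹' E i) ∆ (S0 ⁻¹' E i)) < δ) ∧
      ∃ J : Set (Set (XX × ℝ)), J.Finite ∧ (∀ F ∈ J, MeasurableSet F) ∧ ∃ δ' : ℝ, 0 < δ' ∧ ∃ n0 : ℕ,
        ∀ S' : (XX × ℝ) ≃ᵐ (XX × ℝ), IsExt mm lam sh S' →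
          (∀ F ∈ J, (mm.prod lam).real ((S' ⁻¹' F) ∆ (S0 ⁻¹' F)) ≤ δ') → ∀ n ≥ n0,
          ∫ x, (∫ y, g (flf H0 ((S' : XX × ℝ → XX × ℝ)^[n] (x, y)).2) * g' (flf H0 y) ∂lam) ^ 2 ∂mm ≤ ε := by
  classical
  obtain ⟨hSm, hSe⟩ := hS
  have hH0 : 0 < H0 := NeZero.pos H0
  obtain ⟨m0, hm0⟩ := exists_nat_gt (6 / ε)
  set m1 := m0 + 1 with hm1d
  have hm1 : 0 < m1 := by omega
  have hm1r : 6 / ε < (m1 : ℝ) := by rw [hm1d]; push_cast; linarith
  obtain ⟨m2, hm2, hC⟩ := LSApx_multi mm E hE (H0 * m1) (by positivity) (δ / 8) (by positivity)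
  choose C hCm hC using hC
  obtain ⟨N, hNZ, hdvd, φ, hφ, hlab⟩ := fam_dense mm sh sh_mp S hSm hSe (H0 * m1 * m2) (by positivity) (δ / 8) (by positivity)
  have hNr : (0 : ℝ) < N := by exact_mod_cast NeZero.pos N
  obtain ⟨m3, hm3⟩ := hdvd
  have hm3pos : 0 < m3 := by
    rcases Nat.eq_zero_or_pos m3 with h | h
    · exfalso
      rw [h, mul_zero] at hm3
      exact (NeZero.ne N) hm3
    · exact h
  have hNbig : 2 / (N : ℝ) ≤ ε / 3 := by
    have h1 : m1 ≤ N := by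
      rw [hm3]
      calc m1 = 1 * m1 * 1 * 1 := by ring
        _ ≤ H0 * m1 * m2 * m3 := by gcongr <;> omega
    have h2 : (m1 : ℝ) ≤ N := by exact_mod_cast h1
    have h3 : 6 / ε < N := lt_of_lt_of_le hm1r h2
    rw [div_lt_iff₀ hε] at h3
    rw [div_le_div_iff₀ hNr (by norm_num)]
    linarith
  obtain ⟨l, φ1, hφ1, hI, hle⟩ := layer_fun φ hφ (δ / 8) (by positivity)
  obtain ⟨M0, hM0⟩ := exists_nat_gt (8 / δ)
  set M := M0 + 1 with hMd
  have hM : 0 < M := by omega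
  have hMr : (0 : ℝ) < M := by exact_mod_cast hM
  have hMle : 1 / (M : ℝ) ≤ δ / 8 := by
    have : 8 / δ < (M : ℝ) := by rw [hMd]; push_cast; linarith
    rw [div_lt_iff₀ hδ] at this
    rw [div_le_div_iff₀ hMr (by norm_num)]
    linarith
  obtain ⟨π, hπ, hπ1, hscr⟩ := exists_scr N M hM
  set q : ℝ := 1 - 1 / M with hq
  have hM1 : 1 / (M : ℝ) ≤ 1 := by
    rw [div_le_one hMr]
    exact_mod_cast hM
  have hq0 : 0 ≤ q := by rw [hq]; linarith
  have hM2 : 0 < 1 / (M : ℝ) := by positivity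
  have hq1 : q < 1 := by rw [hq]; linarith
  set Φ := Phi φ1 π l with hΦd
  have hΦ : Ms Φ := Phi_ms φ1 hφ1 π hπ l
  -- closeness of the cocycles
  have hQ1 : MeasurableSet {x | φ x ≠ φ1 x} := by
    have : {x | φ x ≠ φ1 x} = (⋂ a, {x | φ x a = φ1 x a})ᶜ := by
      ext x
      simp only [mem_ofPred_eq, mem_compl_iff, mem_iInter, ne_eq]
      exact not_congr ⟨fun h a => by rw [h], fun h => Equiv.ext h⟩
    rw [this]
    exact (MeasurableSet.iInter fun a => measurableSet_eq_fun (hφ a) (hφ1 a)).compl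
  have hQ2m : MeasurableSet {t : ℝ | π t ≠ 1} := (ms_eq π hπ 1).compl
  have hev := measurePreserving_eval_infinitePi (fun _ : ℤ × ℕ => lam) (0, l)
  have hQ2 : MeasurableSet {x : XX | π (x (0, l)) ≠ 1} := hev.measurable hQ2m
  set Q : Set XX := {x | φ x ≠ φ1 x} ∪ {x : XX | π (x (0, l)) ≠ 1} with hQd
  have hQ : MeasurableSet Q := hQ1.union hQ2
  have hQle : mm.real Q ≤ δ / 4 := by
    have e1 : mm.real {x : XX | π (x (0, l)) ≠ 1} = lam.real {t : ℝ | π t ≠ 1} := by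
      rw [measureReal_def, measureReal_def, ← hev.measure_preimage hQ2m.nullMeasurableSet]
      rfl
    have e2 := measureReal_union_le (μ := mm) {x | φ x ≠ φ1 x} {x : XX | π (x (0, l)) ≠ 1}
    rw [e1] at e2
    linarith
  have hΦQ : ∀ x ∉ Q, Φ x = φ x := by
    intro x hx
    rw [hQd, mem_union, not_or] at hx
    have e1 : φ x = φ1 x := not_not.1 hx.1
    have e2 : π (x (0, l)) = 1 := not_not.1 hx.2
    show φ1 x * π (x (0, l)) = φ x
    rw [e2, mul_one, e1]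
  -- the parameters
  obtain ⟨L0, hL0⟩ := exists_nat_gt (16 / (1 - q) * (3 * (N : ℝ) ^ 4 / ε) ^ 2)
  set L := L0 + 1 with hLd
  have hL : 0 < L := by omega
  have hLr : (0 : ℝ) < L := by exact_mod_cast hL
  have hq2 : 0 < 1 - q := by linarith
  have hLbig : (N : ℝ) ^ 4 * Real.sqrt (16 * L / (1 - q)) / L ≤ ε / 3 := by
    have e1 : 16 / (1 - q) * (3 * (N : ℝ) ^ 4 / ε) ^ 2 < L := by rw [hLd]; push_cast; linarith
    have e2 : Real.sqrt (16 * L / (1 - q)) ≤ ε * L / (3 * (N : ℝ) ^ 4) := by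
      apply Real.sqrt_le_iff.2
      refine ⟨by positivity, ?_⟩
      have e3 : (ε * L / (3 * (N : ℝ) ^ 4)) ^ 2 = L * (L / (3 * (N : ℝ) ^ 4 / ε) ^ 2) := by
        field_simp
      rw [e3]
      have e4 : 16 / (1 - q) ≤ L / (3 * (N : ℝ) ^ 4 / ε) ^ 2 := by
        rw [le_div_iff₀ (by positivity)]
        exact e1.le
      calc 16 * (L : ℝ) / (1 - q) = L * (16 / (1 - q)) := by ring
        _ ≤ _ := by gcongr
    rw [div_le_iff₀ hLr]
    calc (N : ℝ) ^ 4 * Real.sqrt (16 * L / (1 - q)) ≤ (N : ℝ) ^ 4 * (ε * L / (3 * (N : ℝ) ^ 4)) := by gcongr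
      _ = ε / 3 * L := by field_simp
  set δ2 : ℝ := ε / (24 * L) with hδ2
  have hδ2p : 0 < δ2 := by rw [hδ2]; positivity
  refine ⟨SK sh Φ hΦ, ⟨SK_mp mm sh sh_mp Φ hΦ, Eventually.of_forall (fun z => rfl)⟩, ?_,
    Set.range (fun k : Fin N => {z : XX × ℝ | flf N z.2 = k}), Set.finite_range _, ?_, δ2 / N, by positivity, L, ?_⟩
  · intro i
    have hLm : MeasurableSet (LS (H0 * m1 * m2) (C i)) := LS_meas _ _ (hCm i)
    have e1 : (mm.prod lam).real ((S ⁻¹' E i) ∆ (S ⁻¹' LS (H0 * m1 * m2) (C i))) < δ / 8 := by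
      rw [← preimage_symmDiff, mp_real' hSm ((hE i).symmDiff hLm)]
      exact hC i
    have e2 := lab_diff mm sh S hSe φ hφ (C i) (δ / 8) hlab
    have e3 := pert_diff mm sh Φ φ hΦ hφ Q hQ hΦQ (LS (H0 * m1 * m2) (C i))
    have e4 : (mm.prod lam).real ((SK sh Φ hΦ ⁻¹' LS (H0 * m1 * m2) (C i)) ∆ (SK sh Φ hΦ ⁻¹' E i)) < δ / 8 := by
      rw [← preimage_symmDiff, mp_real' (SK_mp mm sh sh_mp Φ hΦ) (hLm.symmDiff (hE i)), symmDiff_comm]
      exact hC i
    have e5 := diff_tri (mm.prod lam) (S ⁻¹' E i) (S ⁻¹' LS (H0 * m1 * m2) (C i)) (SK sh Φ hΦ ⁻¹' E i)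
    have e6 := diff_tri (mm.prod lam) (S ⁻¹' LS (H0 * m1 * m2) (C i)) (SK sh φ hφ ⁻¹' LS (H0 * m1 * m2) (C i))
      (SK sh Φ hΦ ⁻¹' E i)
    have e7 := diff_tri (mm.prod lam) (SK sh φ hφ ⁻¹' LS (H0 * m1 * m2) (C i))
      (SK sh Φ hΦ ⁻¹' LS (H0 * m1 * m2) (C i)) (SK sh Φ hΦ ⁻¹' E i)
    linarith
  · rintro F ⟨k, rfl⟩
    exact ((flf_meas N).comp measurable_snd) (measurableSet_singleton k)
  · intro S' hS' hclose n hn
    obtain ⟨hS'm, hS'e⟩ := hS'
    let G : XX → ℝ → ℝ := fun x y => (S' (x, y)).2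
    have hG : Measurable (fun z : XX × ℝ => G z.1 z.2) := measurable_snd.comp S'.measurable
    have hmp : ∀ᵐ x ∂mm, MeasurePreserving (G x) lam lam := fib_mp mm sh sh_mp S' hS'm hS'e
    have hbad : (mm.prod lam).real {z | flf N (G z.1 z.2) ≠ Φ z.1 (flf N z.2)} ≤ δ2 := by
      have hsub : ∀ᵐ z ∂(mm.prod lam), z ∈ {z : XX × ℝ | flf N (G z.1 z.2) ≠ Φ z.1 (flf N z.2)} →
          z ∈ ⋃ k ∈ (Finset.univ : Finset (Fin N)), ((S' ⁻¹' {z : XX × ℝ | flf N z.2 = k}) ∆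
            (SK sh Φ hΦ ⁻¹' {z : XX × ℝ | flf N z.2 = k})) := by
        have hico : ∀ᵐ z ∂(mm.prod lam), z.2 ∈ Ico (0 : ℝ) 1 :=
          (measurePreserving_snd (μ := mm) (ν := lam)).quasiMeasurePreserving.ae ae_Ico
        filter_upwards [hico] with z hz hzb
        have e1 : flf N (SK sh Φ hΦ z).2 = Φ z.1 (flf N z.2) := by
          rw [SK_apply]
          exact (rzf_mem N (Φ z.1) z.2 hz).2
        have e2 : flf N (S' z).2 ≠ flf N (SK sh Φ hΦ z).2 := by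
          rw [e1]
          exact hzb
        simp only [mem_iUnion, Finset.mem_univ, exists_prop, true_and]
        refine ⟨flf N (S' z).2, Or.inl ⟨rfl, fun h => e2 ?_⟩⟩
        exact Eq.symm h
      have e3 : (mm.prod lam).real {z | flf N (G z.1 z.2) ≠ Φ z.1 (flf N z.2)} ≤
          (mm.prod lam).real (⋃ k ∈ (Finset.univ : Finset (Fin N)), ((S' ⁻¹' {z : XX × ℝ | flf N z.2 = k}) ∆
            (SK sh Φ hΦ ⁻¹' {z : XX × ℝ | flf N z.2 = k}))) :=
        ENNReal.toReal_mono (measure_ne_top _ _) (measure_mono_ae hsub)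
      refine le_trans e3 ?_
      refine le_trans (measureReal_biUnion_finset_le _ _) ?_
      refine le_trans (Finset.sum_le_sum (fun k _ => hclose _ ⟨k, rfl⟩)) ?_
      rw [Finset.sum_const, Finset.card_univ, Fintype.card_fin, nsmul_eq_mul]
      apply le_of_eq
      field_simp
    -- labels
    have hNH : N = H0 * (m1 * m2 * m3) := by rw [hm3]; ring
    have hmp0 : 0 < m1 * m2 * m3 := by positivity
    let w : Fin N → ℝ := fun b => g (Fin.ofNat H0 ((b : ℕ) / (m1 * m2 * m3)))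
    let w' : Fin N → ℝ := fun b => g' (Fin.ofNat H0 ((b : ℕ) / (m1 * m2 * m3)))
    have hlabel : ∀ y ∈ Ico (0 : ℝ) 1, flf H0 y = Fin.ofNat H0 ((flf N y : ℕ) / (m1 * m2 * m3)) := by
      intro y hy
      rw [flf_val N y hy]
      unfold flf
      congr 1
      rw [fl_div H0 (m1 * m2 * m3) hH0 hmp0 y, ← hNH]
    have hws : ∑ b, w b = 0 := by
      have e1 := int_lab w
      have e2 := int_lab g
      rw [hgs, mul_zero] at e2
      have e3 : ∫ y, w (flf N y) ∂lam = ∫ y, g (flf H0 y) ∂lam := by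
        apply integral_congr_ae
        filter_upwards [ae_Ico] with y hy
        rw [hlabel y hy]
      rw [e3, e2] at e1
      have e4 : (1 / (N : ℝ)) ≠ 0 := by positivity
      exact (mul_eq_zero.1 e1.symm).resolve_left e4
    have hcore := core φ1 hφ1 π hπ l hI q hq0 hq1 hscr G hG hmp δ2 hδ2p.le hbad w w' (fun b => hg _) (fun b => hg' _)
      hws n L hL hn
    have hcc : ∀ᵐ x ∂mm, (∫ y, g (flf H0 ((S' : XX × ℝ → XX × ℝ)^[n] (x, y)).2) * g' (flf H0 y) ∂lam) =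
        cc G w w' n x := by
      have e1 := Measure.ae_ae_of_ae_prod (iter_eq S' ⟨hS'm, hS'e⟩ n)
      filter_upwards [e1, Gn_mp G hmp n] with x hx1 hx2
      unfold cc
      apply integral_congr_ae
      have e2 := hx2.quasiMeasurePreserving.ae ae_Ico
      filter_upwards [hx1, ae_Ico, e2] with y hy1 hy2 hy3
      rw [hy1]
      show g (flf H0 (Gn G n x y)) * _ = w (flf N (Gn G n x y)) * w' (flf N y)
      rw [hlabel _ hy3, hlabel _ hy2]
    have hfin : ∫ x, (∫ y, g (flf H0 ((S' : XX × ℝ → XX × ℝ)^[n] (x, y)).2) * g' (flf H0 y) ∂lam) ^ 2 ∂mm =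
        ∫ x, cc G w w' n x ^ 2 ∂mm := by
      apply integral_congr_ae
      filter_upwards [hcc] with x hx
      rw [hx]
    rw [hfin]
    refine le_trans hcore ?_
    have e5 : 8 * ((L : ℝ) * δ2) = ε / 3 := by
      rw [hδ2]
      field_simp
      norm_num
    linarith

end Pool.Agent.X182.SM
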