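import Mathlib
import Pool.Agent.X182.SM.F

set_option autoImplicit false
set_option linter.unusedSectionVars false
set_option linter.unusedVariables false

/-!
Reduction of relative mixing to step functions.
-/

namespace Pool.Agent.X182.SM

open MeasureTheory Set Filter Topology
open scoped ENNReal symmDiff
open Pool.H359R3 Pool.H359R3.WH Pool.H359R3.MX

theorem sq4 (a b : ℝ≥0∞) : (a + b) ^ 2 ≤ 4 * a ^ 2 + 4 * b ^ 2 := by
  rcases le_total a b with h | h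
  · calc (a + b) ^ 2 ≤ (b + b) ^ 2 := by gcongr
      _ = 4 * b ^ 2 := by ring
      _ ≤ _ := le_add_self
  · calc (a + b) ^ 2 ≤ (a + a) ^ 2 := by gcongr
      _ = 4 * a ^ 2 := by ring
      _ ≤ _ := le_self_add

theorem cs (u v : ℝ → ℂ) (hu : AEMeasurable u lam) (hv : AEMeasurable v lam) :
    ‖∫ y, u y * v y ∂lam‖ₑ ^ 2 ≤ (∫⁻ y, ‖u y‖ₑ ^ 2 ∂lam) * ∫⁻ y, ‖v y‖ₑ ^ 2 ∂lam := by
  have h1 : ‖∫ y, u y * v y ∂lam‖ₑ ≤ ∫⁻ y, ‖u y‖ₑ * ‖v y‖ₑ ∂lam := by
    refine le_trans (enorm_integral_le_lintegral_enorm _) (le_of_eq ?_)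
    congr 1
    funext y
    exact enorm_mul _ _
  have h2 := ENNReal.lintegral_mul_le_Lp_mul_Lq (μ := lam) (p := 2) (q := 2) Real.HolderConjugate.two_two
    hu.enorm hv.enorm
  have h3 : ∀ a : ℝ≥0∞, (a ^ ((1 : ℝ) / 2)) ^ 2 = a := by
    intro a
    rw [← ENNReal.rpow_natCast, ← ENNReal.rpow_mul]
    norm_num
  calc ‖∫ y, u y * v y ∂lam‖ₑ ^ 2 ≤ (∫⁻ y, ‖u y‖ₑ * ‖v y‖ₑ ∂lam) ^ 2 := by gcongr
    _ ≤ ((∫⁻ y, ‖u y‖ₑ ^ (2 : ℝ) ∂lam) ^ ((1 : ℝ) / 2) * (∫⁻ y, ‖v y‖ₑ ^ (2 : ℝ) ∂lam) ^ ((1 : ℝ) / 2)) ^ 2 := by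
        gcongr
        exact h2
    _ = _ := by
        rw [mul_pow, h3, h3]
        congr 1
        · congr 1
          funext y
          exact ENNReal.rpow_ofNat _ 2
        · congr 1
          funext y
          exact ENNReal.rpow_ofNat _ 2

/-- the deviation from relative mixing -/
noncomputable def Dv (S : (XX × ℝ) ≃ᵐ (XX × ℝ)) (f g : XX × ℝ → ℂ) (n : ℕ) (x : XX) : ℂ :=
  (∫ y, f ((S : XX × ℝ → XX × ℝ)^[n] (x, y)) * starRingEnd ℂ (g (x, y)) ∂lam) -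
    (∫ y, f ((sh : XX → XX)^[n] x, y) ∂lam) * ∫ y, starRingEnd ℂ (g (x, y)) ∂lam

/-- its square norm -/
noncomputable def AA (S : (XX × ℝ) ≃ᵐ (XX × ℝ)) (f g : XX × ℝ → ℂ) (n : ℕ) : ℝ≥0∞ := ∫⁻ x, ‖Dv S f g n x‖ₑ ^ 2 ∂mm

section
variable (S : (XX × ℝ) ≃ᵐ (XX × ℝ)) (hS : IsExt mm lam sh S)
include hS

theorem Dv_congr (f f' g g' : XX × ℝ → ℂ) (hf : f =ᵐ[mm.prod lam] f') (hg : g =ᵐ[mm.prod lam] g') (n : ℕ) :
    ∀ᵐ x ∂mm, Dv S f g n x = Dv S f' g' n x := by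
  have h1 := (hS.1.iterate n).quasiMeasurePreserving.ae hf
  have hm : MeasurePreserving (Prod.map ((sh : XX → XX)^[n]) (id : ℝ → ℝ)) (mm.prod lam) (mm.prod lam) :=
    (sh_mp.iterate n).prod (MeasurePreserving.id lam)
  have h2 := hm.quasiMeasurePreserving.ae hf
  filter_upwards [Measure.ae_ae_of_ae_prod h1, Measure.ae_ae_of_ae_prod h2, Measure.ae_ae_of_ae_prod hg] with x hx1 hx2 hx3
  unfold Dv
  congr 1
  · apply integral_congr_ae
    filter_upwards [hx1, hx3] with y hy1 hy3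
    rw [hy1, hy3]
  · congr 1
    · apply integral_congr_ae
      filter_upwards [hx2] with y hy2
      exact hy2
    · apply integral_congr_ae
      filter_upwards [hx3] with y hy3
      rw [hy3]

theorem AA_congr (f f' g g' : XX × ℝ → ℂ) (hf : f =ᵐ[mm.prod lam] f') (hg : g =ᵐ[mm.prod lam] g') (n : ℕ) :
    AA S f g n = AA S f' g' n := by
  unfold AA
  apply lintegral_congr_ae
  filter_upwards [Dv_congr S hS f f' g g' hf hg n] with x hx
  rw [hx]

theorem Dv_meas (f g : XX × ℝ → ℂ) (hf : Measurable f) (hg : Measurable g) (n : ℕ) : Measurable (Dv S f g n) := by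
  unfold Dv
  have hc : Measurable (starRingEnd ℂ : ℂ → ℂ) := Complex.continuous_conj.measurable
  refine Measurable.sub ?_ (Measurable.mul ?_ ?_)
  · have : Measurable (fun z : XX × ℝ => f ((S : XX × ℝ → XX × ℝ)^[n] z) * starRingEnd ℂ (g z)) :=
      (hf.comp (S.measurable.iterate n)).mul (hc.comp hg)
    exact (this.stronglyMeasurable.integral_prod_right' (ν := lam)).measurable
  · have : Measurable (fun z : XX × ℝ => f ((sh : XX → XX)^[n] z.1, z.2)) :=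
      hf.comp (((shm n).comp measurable_fst).prodMk measurable_snd)
    exact (this.stronglyMeasurable.integral_prod_right' (ν := lam)).measurable
  · exact ((hc.comp hg).stronglyMeasurable.integral_prod_right' (ν := lam)).measurable

/-- almost every fibre: the integrals exist -/
theorem fib_int (f g : XX × ℝ → ℂ) (hf : MemLp f 2 (mm.prod lam)) (hg : MemLp g 2 (mm.prod lam)) (n : ℕ) :
    ∀ᵐ x ∂mm, Integrable (fun y => f ((S : XX × ℝ → XX × ℝ)^[n] (x, y)) * starRingEnd ℂ (g (x, y))) lam ∧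
      Integrable (fun y => f ((sh : XX → XX)^[n] x, y)) lam ∧ Integrable (fun y => starRingEnd ℂ (g (x, y))) lam := by
  have hm : MeasurePreserving (Prod.map ((sh : XX → XX)^[n]) (id : ℝ → ℝ)) (mm.prod lam) (mm.prod lam) :=
    (sh_mp.iterate n).prod (MeasurePreserving.id lam)
  have hgc : MemLp (fun z => starRingEnd ℂ (g z)) 2 (mm.prod lam) := by
    have := hg.star
    exact this
  have h1 : Integrable ((fun z => f ((S : XX × ℝ → XX × ℝ)^[n] z)) * (fun z => starRingEnd ℂ (g z))) (mm.prod lam) :=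
    MemLp.integrable_mul (hf.comp_measurePreserving (hS.1.iterate n)) hgc
  have h2 : Integrable (fun z : XX × ℝ => f (Prod.map ((sh : XX → XX)^[n]) (id : ℝ → ℝ) z)) (mm.prod lam) :=
    (hf.comp_measurePreserving hm).integrable (by norm_num)
  have h3 : Integrable (fun z => starRingEnd ℂ (g z)) (mm.prod lam) := hgc.integrable (by norm_num)
  filter_upwards [h1.prod_right_ae, h2.prod_right_ae, h3.prod_right_ae] with x hx1 hx2 hx3
  exact ⟨hx1, hx2, hx3⟩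

theorem Dv_add_left (f f' g : XX × ℝ → ℂ) (hf : MemLp f 2 (mm.prod lam)) (hf' : MemLp f' 2 (mm.prod lam))
    (hg : MemLp g 2 (mm.prod lam)) (n : ℕ) :
    ∀ᵐ x ∂mm, Dv S (f + f') g n x = Dv S f g n x + Dv S f' g n x := by
  filter_upwards [fib_int S hS f g hf hg n, fib_int S hS f' g hf' hg n] with x hx hx'
  unfold Dv
  simp only [Pi.add_apply, add_mul]
  rw [integral_add hx.1 hx'.1, integral_add hx.2.1 hx'.2.1]
  ring

theorem Dv_add_right (f g g' : XX × ℝ → ℂ) (hf : MemLp f 2 (mm.prod lam)) (hg : MemLp g 2 (mm.prod lam))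
    (hg' : MemLp g' 2 (mm.prod lam)) (n : ℕ) :
    ∀ᵐ x ∂mm, Dv S f (g + g') n x = Dv S f g n x + Dv S f g' n x := by
  filter_upwards [fib_int S hS f g hf hg n, fib_int S hS f g' hf hg' n] with x hx hx'
  unfold Dv
  simp only [Pi.add_apply, map_add, mul_add]
  rw [integral_add hx.1 hx'.1, integral_add hx.2.2 hx'.2.2]
  ring

theorem AA_of_add (f g f1 g1 f2 g2 : XX × ℝ → ℂ) (hf : MemLp f 2 (mm.prod lam)) (hg : MemLp g 2 (mm.prod lam))
    (n : ℕ) (hm1 : AEMeasurable (Dv S f1 g1 n) mm)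
    (h : ∀ᵐ x ∂mm, Dv S f g n x = Dv S f1 g1 n x + Dv S f2 g2 n x) :
    AA S f g n ≤ 4 * AA S f1 g1 n + 4 * AA S f2 g2 n := by
  unfold AA
  calc ∫⁻ x, ‖Dv S f g n x‖ₑ ^ 2 ∂mm ≤ ∫⁻ x, (4 * ‖Dv S f1 g1 n x‖ₑ ^ 2 + 4 * ‖Dv S f2 g2 n x‖ₑ ^ 2) ∂mm := by
        apply lintegral_mono_ae
        filter_upwards [h] with x hx
        rw [hx]
        refine le_trans ?_ (sq4 _ _)
        gcongr
        exact enorm_add_le _ _
    _ = _ := by
        rw [lintegral_add_left' ((hm1.enorm.pow_const 2).const_mul 4), lintegral_const_mul' _ _ (by norm_num),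
          lintegral_const_mul' _ _ (by norm_num)]

theorem Dv_aemeas (f g : XX × ℝ → ℂ) (hf : AEMeasurable f (mm.prod lam)) (hg : AEMeasurable g (mm.prod lam)) (n : ℕ) :
    AEMeasurable (Dv S f g n) mm :=
  ⟨Dv S (hf.mk f) (hg.mk g) n, Dv_meas S hS _ _ hf.measurable_mk hg.measurable_mk n,
    Dv_congr S hS _ _ _ _ hf.ae_eq_mk hg.ae_eq_mk n⟩

/-- bound by the norm of the first function -/
theorem bound_left (f g : XX × ℝ → ℂ) (hf : Measurable f) (hg : Measurable g) (C : ℝ≥0∞) (hC : C ≠ ∞)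
    (hgC : ∀ᵐ x ∂mm, ∫⁻ y, ‖g (x, y)‖ₑ ^ 2 ∂lam ≤ C) (n : ℕ) :
    AA S f g n ≤ 8 * C * ∫⁻ z, ‖f z‖ₑ ^ 2 ∂(mm.prod lam) := by
  have hm : MeasurePreserving (Prod.map ((sh : XX → XX)^[n]) (id : ℝ → ℝ)) (mm.prod lam) (mm.prod lam) :=
    (sh_mp.iterate n).prod (MeasurePreserving.id lam)
  have hc : Measurable (starRingEnd ℂ : ℂ → ℂ) := Complex.continuous_conj.measurable
  have hF : Measurable (fun z => ‖f z‖ₑ ^ 2) := hf.enorm.pow_const 2
  have e1 : ∫⁻ x, ∫⁻ y, ‖f ((S : XX × ℝ → XX × ℝ)^[n] (x, y))‖ₑ ^ 2 ∂lam ∂mm = ∫⁻ z, ‖f z‖ₑ ^ 2 ∂(mm.prod lam) := by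
    rw [← (hS.1.iterate n).lintegral_comp hF]
    exact (lintegral_prod _ (hF.comp (S.measurable.iterate n)).aemeasurable).symm
  have e2 : ∫⁻ x, ∫⁻ y, ‖f ((sh : XX → XX)^[n] x, y)‖ₑ ^ 2 ∂lam ∂mm = ∫⁻ z, ‖f z‖ₑ ^ 2 ∂(mm.prod lam) := by
    rw [← hm.lintegral_comp hF]
    exact (lintegral_prod _ (hF.comp hm.measurable).aemeasurable).symm
  unfold AA
  calc ∫⁻ x, ‖Dv S f g n x‖ₑ ^ 2 ∂mm ≤
      ∫⁻ x, (4 * C * (∫⁻ y, ‖f ((S : XX × ℝ → XX × ℝ)^[n] (x, y))‖ₑ ^ 2 ∂lam) +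
        4 * C * (∫⁻ y, ‖f ((sh : XX → XX)^[n] x, y)‖ₑ ^ 2 ∂lam)) ∂mm := by
        apply lintegral_mono_ae
        filter_upwards [hgC] with x hx
        have hgx : Measurable (fun y => starRingEnd ℂ (g (x, y))) := hc.comp (hg.comp (measurable_const.prodMk measurable_id))
        have hfx : Measurable (fun y => f ((S : XX × ℝ → XX × ℝ)^[n] (x, y))) :=
          (hf.comp (S.measurable.iterate n)).comp (measurable_const.prodMk measurable_id)
        have hfx2 : Measurable (fun y => f ((sh : XX → XX)^[n] x, y)) := hf.comp (measurable_const.prodMk measurable_id)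
        have hgn : ∫⁻ y, ‖starRingEnd ℂ (g (x, y))‖ₑ ^ 2 ∂lam ≤ C := by
          refine le_trans (le_of_eq ?_) hx
          congr 1
          funext y
          congr 1
          simp [enorm]
        have i1 := cs _ _ hfx.aemeasurable hgx.aemeasurable
        have i2 := cs (fun y => f ((sh : XX → XX)^[n] x, y)) (fun _ => 1) hfx2.aemeasurable aemeasurable_const
        have i3 := cs (fun _ => 1) (fun y => starRingEnd ℂ (g (x, y))) aemeasurable_const hgx.aemeasurable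
        simp only [mul_one, one_mul, enorm_one, one_pow, lintegral_const, measure_univ] at i2 i3
        unfold Dv
        refine le_trans ?_ (le_trans (sq4 ‖∫ y, f ((S : XX × ℝ → XX × ℝ)^[n] (x, y)) * starRingEnd ℂ (g (x, y)) ∂lam‖ₑ
          ‖(∫ y, f ((sh : XX → XX)^[n] x, y) ∂lam) * ∫ y, starRingEnd ℂ (g (x, y)) ∂lam‖ₑ) ?_)
        · gcongr
          exact enorm_sub_le
        · rw [enorm_mul, mul_pow]
          calc _ ≤ 4 * ((∫⁻ y, ‖f ((S : XX × ℝ → XX × ℝ)^[n] (x, y))‖ₑ ^ 2 ∂lam) * C) +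
              4 * ((∫⁻ y, ‖f ((sh : XX → XX)^[n] x, y)‖ₑ ^ 2 ∂lam) * C) := by
                gcongr
                · exact le_trans i1 (by gcongr)
                · exact le_trans i3 hgn
            _ = _ := by ring
    _ = 8 * C * ∫⁻ z, ‖f z‖ₑ ^ 2 ∂(mm.prod lam) := by
        have hm1 : Measurable (fun x => ∫⁻ y, ‖f ((S : XX × ℝ → XX × ℝ)^[n] (x, y))‖ₑ ^ 2 ∂lam) :=
          (hF.comp (S.measurable.iterate n)).lintegral_prod_right'
        have hC4 : (4 : ℝ≥0∞) * C ≠ ∞ := ENNReal.mul_ne_top (by norm_num) hC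
        rw [lintegral_add_left (hm1.const_mul _), lintegral_const_mul' _ _ hC4, lintegral_const_mul' _ _ hC4, e1, e2]
        ring

/-- bound by the norm of the second function -/
theorem bound_right (f g : XX × ℝ → ℂ) (hf : Measurable f) (hg : Measurable g) (C : ℝ≥0∞) (hC : C ≠ ∞)
    (hfC : ∀ᵐ x ∂mm, ∫⁻ y, ‖f (x, y)‖ₑ ^ 2 ∂lam ≤ C) (n : ℕ) :
    AA S f g n ≤ 8 * C * ∫⁻ z, ‖g z‖ₑ ^ 2 ∂(mm.prod lam) := by
  have hc : Measurable (starRingEnd ℂ : ℂ → ℂ) := Complex.continuous_conj.measurable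
  have hF : Measurable (fun z => ‖g z‖ₑ ^ 2) := hg.enorm.pow_const 2
  have e1 : ∫⁻ x, ∫⁻ y, ‖g (x, y)‖ₑ ^ 2 ∂lam ∂mm = ∫⁻ z, ‖g z‖ₑ ^ 2 ∂(mm.prod lam) :=
    (lintegral_prod _ hF.aemeasurable).symm
  have hmp : ∀ᵐ x ∂mm, MeasurePreserving (fun y => (S (x, y)).2) lam lam := fib_mp mm sh sh_mp S hS.1 hS.2
  have h1 := Gn_mp (fun x y => (S (x, y)).2) hmp n
  have h2 := Measure.ae_ae_of_ae_prod (iter_eq S hS n)
  have h3 := (sh_mp.iterate n).quasiMeasurePreserving.ae hfC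
  unfold AA
  calc ∫⁻ x, ‖Dv S f g n x‖ₑ ^ 2 ∂mm ≤ ∫⁻ x, (8 * C * ∫⁻ y, ‖g (x, y)‖ₑ ^ 2 ∂lam) ∂mm := by
        apply lintegral_mono_ae
        filter_upwards [h1, h2, h3] with x hx1 hx2 hx3
        have hgx : Measurable (fun y => starRingEnd ℂ (g (x, y))) := hc.comp (hg.comp (measurable_const.prodMk measurable_id))
        have hfx : Measurable (fun y => f ((S : XX × ℝ → XX × ℝ)^[n] (x, y))) :=
          (hf.comp (S.measurable.iterate n)).comp (measurable_const.prodMk measurable_id)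
        have hfx2 : Measurable (fun y => f ((sh : XX → XX)^[n] x, y)) := hf.comp (measurable_const.prodMk measurable_id)
        have hgn : ∫⁻ y, ‖starRingEnd ℂ (g (x, y))‖ₑ ^ 2 ∂lam = ∫⁻ y, ‖g (x, y)‖ₑ ^ 2 ∂lam := by
          congr 1
          funext y
          congr 1
          simp [enorm]
        have hfn : ∫⁻ y, ‖f ((S : XX × ℝ → XX × ℝ)^[n] (x, y))‖ₑ ^ 2 ∂lam ≤ C := by
          have e3 : ∫⁻ y, ‖f ((S : XX × ℝ → XX × ℝ)^[n] (x, y))‖ₑ ^ 2 ∂lam =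
              ∫⁻ y, ‖f ((sh : XX → XX)^[n] x, Gn (fun x y => (S (x, y)).2) n x y)‖ₑ ^ 2 ∂lam := by
            apply lintegral_congr_ae
            filter_upwards [hx2] with y hy
            rw [hy]
          rw [e3, hx1.lintegral_comp (f := fun y => ‖f ((sh : XX → XX)^[n] x, y)‖ₑ ^ 2) (hfx2.enorm.pow_const 2)]
          exact hx3
        have i1 := cs _ _ hfx.aemeasurable hgx.aemeasurable
        have i2 := cs (fun y => f ((sh : XX → XX)^[n] x, y)) (fun _ => 1) hfx2.aemeasurable aemeasurable_const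
        have i3 := cs (fun _ => 1) (fun y => starRingEnd ℂ (g (x, y))) aemeasurable_const hgx.aemeasurable
        simp only [mul_one, one_mul, enorm_one, one_pow, lintegral_const, measure_univ] at i2 i3
        rw [hgn] at i1 i3
        unfold Dv
        refine le_trans ?_ (le_trans (sq4 ‖∫ y, f ((S : XX × ℝ → XX × ℝ)^[n] (x, y)) * starRingEnd ℂ (g (x, y)) ∂lam‖ₑ
          ‖(∫ y, f ((sh : XX → XX)^[n] x, y) ∂lam) * ∫ y, starRingEnd ℂ (g (x, y)) ∂lam‖ₑ) ?_)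
        · gcongr
          exact enorm_sub_le
        · rw [enorm_mul, mul_pow]
          calc _ ≤ 4 * (C * ∫⁻ y, ‖g (x, y)‖ₑ ^ 2 ∂lam) + 4 * (C * ∫⁻ y, ‖g (x, y)‖ₑ ^ 2 ∂lam) := by
                gcongr
                · exact le_trans i1 (by gcongr)
                · exact le_trans i2 hx3
            _ = _ := by ring
    _ = 8 * C * ∫⁻ z, ‖g z‖ₑ ^ 2 ∂(mm.prod lam) := by
        rw [lintegral_const_mul' _ _ (ENNReal.mul_ne_top (by norm_num) hC), e1]

end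

/-- closure principle -/
theorem principle {Z : Type*} [MeasurableSpace Z] (m : Measure Z) [IsProbabilityMeasure m]
    (Q : (Z → ℂ) → ℕ → ℝ≥0∞) (K : ℝ≥0∞) (hK : K ≠ ∞)
    (hadd : ∀ f f', MemLp f 2 m → MemLp f' 2 m → ∀ n, Q (f + f') n ≤ 4 * Q f n + 4 * Q f' n)
    (hb : ∀ f, MemLp f 2 m → ∀ n, Q f n ≤ K * eLpNorm f 2 m ^ 2)
    (D : Set (Set Z)) (hDm : ∀ E ∈ D, MeasurableSet E)
    (hD : ∀ E, MeasurableSet E → ∀ η : ℝ, 0 < η → ∃ F ∈ D, m.real (E ∆ F) < η)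
    (hQD : ∀ F ∈ D, ∀ c : ℂ, Tendsto (Q (F.indicator fun _ => c)) atTop (𝓝 0)) :
    ∀ f, MemLp f 2 m → Tendsto (Q f) atTop (𝓝 0) := by
  intro f hf
  rw [ENNReal.tendsto_nhds_zero]
  intro ε hε
  by_cases hεt : ε = ∞
  · rw [hεt]
    exact Eventually.of_forall fun _ => le_top
  -- choose the approximation
  obtain ⟨δ, hδ, hδε⟩ : ∃ δ : ℝ≥0∞, δ ≠ 0 ∧ 4 * (K * δ ^ 2) ≤ ε / 2 := by
    have h1 : Tendsto (fun n : ℕ => 4 * (K * ((n : ℝ≥0∞)⁻¹) ^ 2)) atTop (𝓝 (4 * (K * 0 ^ 2))) := by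
      refine ENNReal.Tendsto.const_mul ?_ (Or.inr (by norm_num))
      refine ENNReal.Tendsto.const_mul ?_ (Or.inr hK)
      exact ENNReal.Tendsto.pow ENNReal.tendsto_inv_nat_nhds_zero
    simp only [ne_eq, OfNat.ofNat_ne_zero, not_false_eq_true, zero_pow, mul_zero] at h1
    rw [ENNReal.tendsto_nhds_zero] at h1
    obtain ⟨n, hn⟩ := (h1 (ε / 2) (ENNReal.half_pos hε.ne')).exists
    exact ⟨(n : ℝ≥0∞)⁻¹, ENNReal.inv_ne_zero.2 (ENNReal.natCast_ne_top n), hn⟩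
  obtain ⟨g, hg1, hg2, hg3⟩ := MemLp.induction_dense (p := 2) (μ := m) (E := ℂ) (by norm_num)
    (fun g => MemLp g 2 m ∧ Tendsto (Q g) atTop (𝓝 0)) (by
      intro c s hs _ ε' hε'
      obtain ⟨η, hη, hη2⟩ := exists_eLpNorm_indicator_le (p := 2) (μ := m) (by norm_num) c hε'
      obtain ⟨F, hF, hsF⟩ := hD s hs (η : ℝ) hη
      refine ⟨F.indicator fun _ => c, ?_, ?_, hQD F hF c⟩
      · rw [eLpNorm_indicator_sub_indicator]
        apply hη2
        rw [symmDiff_comm, ← ofReal_measureReal (measure_ne_top _ _)]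
        calc ENNReal.ofReal (m.real (s ∆ F)) ≤ ENNReal.ofReal (η : ℝ) := ENNReal.ofReal_le_ofReal hsF.le
          _ = η := ENNReal.ofReal_coe_nnreal
      · exact memLp_indicator_const 2 (hDm F hF) c (Or.inr (measure_ne_top _ _)))
    (by
      rintro f g ⟨hf, hf'⟩ ⟨hg, hg'⟩
      refine ⟨hf.add hg, ?_⟩
      have h1 : Tendsto (fun n => 4 * Q f n + 4 * Q g n) atTop (𝓝 (4 * 0 + 4 * 0)) :=
        (ENNReal.Tendsto.const_mul hf' (Or.inr (by norm_num))).add (ENNReal.Tendsto.const_mul hg' (Or.inr (by norm_num)))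
      rw [mul_zero, add_zero] at h1
      exact tendsto_of_tendsto_of_tendsto_of_le_of_le tendsto_const_nhds h1 (fun _ => zero_le) (hadd f g hf hg))
    (fun f h => h.1.aestronglyMeasurable) hf hδ
  have h2 : Tendsto (fun n => 4 * Q g n) atTop (𝓝 0) := by
    have := ENNReal.Tendsto.const_mul (a := 4) hg3 (Or.inr (by norm_num))
    rwa [mul_zero] at this
  rw [ENNReal.tendsto_nhds_zero] at h2
  filter_upwards [h2 (ε / 2) (ENNReal.half_pos hε.ne')] with n hn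
  have h3 : f = (f - g) + g := by simp
  calc Q f n = Q ((f - g) + g) n := by rw [← h3]
    _ ≤ 4 * Q (f - g) n + 4 * Q g n := hadd _ _ (hf.sub hg2) hg2 n
    _ ≤ 4 * (K * δ ^ 2) + 4 * Q g n := by
        gcongr
        exact le_trans (hb _ (hf.sub hg2) n) (by gcongr)
    _ ≤ ε / 2 + ε / 2 := add_le_add hδε hn
    _ = ε := ENNReal.add_halves ε

end Pool.Agent.X182.SM
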