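import Mathlib
import Pool.Agent.X182.SM.G

set_option autoImplicit false
set_option linter.unusedSectionVars false
set_option linter.unusedVariables false

/-!
From step functions of the fibre to all functions.
-/

namespace Pool.Agent.X182.SM

open MeasureTheory Set Filter Topology
open scoped ENNReal symmDiff
open Pool.H359R3 Pool.H359R3.WH Pool.H359R3.MX

/-- rectangles -/
def rect (A : Set XX) (H : ℕ) [NeZero H] (d : Finset (Fin H)) : Set (XX × ℝ) := {z | z.1 ∈ A ∧ flf H z.2 ∈ d}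

theorem rect_meas (A : Set XX) (hA : MeasurableSet A) (H : ℕ) [NeZero H] (d : Finset (Fin H)) :
    MeasurableSet (rect A H d) :=
  (measurable_fst hA).inter (((flf_meas H).comp measurable_snd) (MeasurableSet.of_discrete (s := {b | b ∈ d})))

open Classical in
/-- indicator -/
noncomputable def iv {H : ℕ} (d : Finset (Fin H)) (b : Fin H) : ℝ := if b ∈ d then 1 else 0

/-- centred indicator -/
noncomputable def gv {H : ℕ} (d : Finset (Fin H)) (b : Fin H) : ℝ := iv d b - (d.card : ℝ) / H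

theorem iv_abs {H : ℕ} (d : Finset (Fin H)) (b : Fin H) : |iv d b| ≤ 1 := by
  unfold iv
  split_ifs <;> simp

theorem iv_sum {H : ℕ} (d : Finset (Fin H)) : ∑ b, iv d b = d.card := by
  classical
  unfold iv
  rw [Finset.sum_ite_mem, Finset.univ_inter, Finset.sum_const, nsmul_eq_mul, mul_one]

theorem gv_abs {H : ℕ} [NeZero H] (d : Finset (Fin H)) (b : Fin H) : |gv d b| ≤ 1 := by
  have hH : (0 : ℝ) < H := by exact_mod_cast NeZero.pos H
  have h1 : (0 : ℝ) ≤ (d.card : ℝ) / H := by positivity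
  have h2 : (d.card : ℝ) / H ≤ 1 := by
    rw [div_le_one hH]
    have := Finset.card_le_univ d
    rw [Fintype.card_fin] at this
    exact_mod_cast this
  unfold gv iv
  rw [abs_le]
  split_ifs <;> constructor <;> linarith

theorem gv_sum {H : ℕ} [NeZero H] (d : Finset (Fin H)) : ∑ b, gv d b = 0 := by
  have hH : (H : ℝ) ≠ 0 := by exact_mod_cast NeZero.ne H
  unfold gv
  rw [Finset.sum_sub_distrib, iv_sum, Finset.sum_const, Finset.card_univ, Fintype.card_fin, nsmul_eq_mul,
    mul_div_cancel₀ _ hH, sub_self]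

theorem iv_int {H : ℕ} [NeZero H] (d : Finset (Fin H)) : ∫ y, iv d (flf H y) ∂lam = (d.card : ℝ) / H := by
  rw [int_lab (iv d), iv_sum]
  ring

/-- fibre correlation of step functions -/
noncomputable def tt (S : (XX × ℝ) ≃ᵐ (XX × ℝ)) (H : ℕ) [NeZero H] (d d' : Finset (Fin H)) (n : ℕ) (x : XX) : ℝ :=
  ∫ y, gv d (flf H ((S : XX × ℝ → XX × ℝ)^[n] (x, y)).2) * iv d' (flf H y) ∂lam

/-- the countable family of conditions -/
def Tst (S : (XX × ℝ) ≃ᵐ (XX × ℝ)) : Prop := ∀ (H : ℕ) [NeZero H] (d d' : Finset (Fin H)),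
  Tendsto (fun n => ∫ x, tt S H d d' n x ^ 2 ∂mm) atTop (𝓝 0)

theorem rect_ind (A : Set XX) (H : ℕ) [NeZero H] (d : Finset (Fin H)) (c : ℂ) (z : XX × ℝ) :
    (rect A H d).indicator (fun _ => c) z =
      c * ((A.indicator (fun _ => (1 : ℝ)) z.1 * iv d (flf H z.2) : ℝ) : ℂ) := by
  classical
  unfold iv
  by_cases h1 : z.1 ∈ A
  · by_cases h2 : flf H z.2 ∈ d
    · rw [indicator_of_mem (show z ∈ rect A H d from ⟨h1, h2⟩), indicator_of_mem h1, if_pos h2]
      simp
    · rw [indicator_of_notMem (show z ∉ rect A H d from fun h => h2 h.2), if_neg h2]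
      simp
  · rw [indicator_of_notMem (show z ∉ rect A H d from fun h => h1 h.1), indicator_of_notMem h1]
    simp

theorem tt_meas (S : (XX × ℝ) ≃ᵐ (XX × ℝ)) (H : ℕ) [NeZero H] (d d' : Finset (Fin H)) (n : ℕ) :
    Measurable (tt S H d d' n) := by
  have : Measurable (fun z : XX × ℝ => gv d (flf H ((S : XX × ℝ → XX × ℝ)^[n] z).2) * iv d' (flf H z.2)) :=
    ((measurable_of_countable (gv d)).comp ((flf_meas H).comp (measurable_snd.comp (S.measurable.iterate n)))).mul
      ((measurable_of_countable (iv d')).comp ((flf_meas H).comp measurable_snd))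
  exact (this.stronglyMeasurable.integral_prod_right' (ν := lam)).measurable

theorem tt_abs (S : (XX × ℝ) ≃ᵐ (XX × ℝ)) (H : ℕ) [NeZero H] (d d' : Finset (Fin H)) (n : ℕ) (x : XX) :
    |tt S H d d' n x| ≤ 1 :=
  int_abs_le lam _ 1 fun y => by
    rw [abs_mul]
    exact mul_le_one₀ (gv_abs _ _) (abs_nonneg _) (iv_abs _ _)

section
variable (S : (XX × ℝ) ≃ᵐ (XX × ℝ)) (hS : IsExt mm lam sh S)
include hS

theorem rect_Dv (A A' : Set XX) (H : ℕ) [NeZero H] (d d' : Finset (Fin H)) (c c' : ℂ) (n : ℕ) :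
    ∀ᵐ x ∂mm, Dv S ((rect A H d).indicator fun _ => c) ((rect A' H d').indicator fun _ => c') n x =
      c * starRingEnd ℂ c' * ((A.indicator (fun _ => (1 : ℝ)) ((sh : XX → XX)^[n] x) *
        A'.indicator (fun _ => (1 : ℝ)) x * tt S H d d' n x : ℝ) : ℂ) := by
  have h2 := Measure.ae_ae_of_ae_prod (iter_fst (mm.prod lam) S sh hS.1 hS.2 n)
  filter_upwards [h2] with x hx
  set a : ℝ := A.indicator (fun _ => (1 : ℝ)) ((sh : XX → XX)^[n] x) with ha
  set a' : ℝ := A'.indicator (fun _ => (1 : ℝ)) x with ha'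
  have e1 : (∫ y, (rect A H d).indicator (fun _ => c) ((S : XX × ℝ → XX × ℝ)^[n] (x, y)) *
      starRingEnd ℂ ((rect A' H d').indicator (fun _ => c') (x, y)) ∂lam) =
      c * starRingEnd ℂ c' * ((a * a' * ∫ y, iv d (flf H ((S : XX × ℝ → XX × ℝ)^[n] (x, y)).2) *
        iv d' (flf H y) ∂lam : ℝ) : ℂ) := by
    rw [← integral_const_mul, ← integral_complex_ofReal, ← integral_const_mul]
    apply integral_congr_ae
    filter_upwards [hx] with y hy
    rw [rect_ind, rect_ind, hy]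
    simp only [map_mul, Complex.conj_ofReal]
    show _ = c * starRingEnd ℂ c' * ((a * a' * _ : ℝ) : ℂ)
    rw [ha, ha']
    push_cast
    ring
  have e2 : (∫ y, (rect A H d).indicator (fun _ => c) ((sh : XX → XX)^[n] x, y) ∂lam) =
      c * ((a * ((d.card : ℝ) / H) : ℝ) : ℂ) := by
    rw [← iv_int d, ← integral_const_mul, ← integral_complex_ofReal, ← integral_const_mul]
    congr 1
    funext y
    rw [rect_ind]
  have e3 : (∫ y, starRingEnd ℂ ((rect A' H d').indicator (fun _ => c') (x, y)) ∂lam) =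
      starRingEnd ℂ c' * ((a' * ((d'.card : ℝ) / H) : ℝ) : ℂ) := by
    rw [← iv_int d', ← integral_const_mul, ← integral_complex_ofReal, ← integral_const_mul]
    congr 1
    funext y
    rw [rect_ind, map_mul, Complex.conj_ofReal]
  have e4 : tt S H d d' n x = (∫ y, iv d (flf H ((S : XX × ℝ → XX × ℝ)^[n] (x, y)).2) *
        iv d' (flf H y) ∂lam) - ((d.card : ℝ) / H) * ((d'.card : ℝ) / H) := by
    have hm1 : Measurable (fun y : ℝ => iv d (flf H ((S : XX × ℝ → XX × ℝ)^[n] (x, y)).2)) :=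
      (measurable_of_countable (iv d)).comp ((flf_meas H).comp (measurable_snd.comp
        ((S.measurable.iterate n).comp (measurable_const.prodMk measurable_id))))
    have hm2 : Measurable (fun y : ℝ => iv d' (flf H y)) := (measurable_of_countable (iv d')).comp (flf_meas H)
    unfold tt gv
    simp only [sub_mul]
    rw [integral_sub, integral_const_mul, iv_int]
    · exact integrable_of_abs_le lam (hm1.mul hm2) 1 fun y => by
        rw [abs_mul]
        exact mul_le_one₀ (iv_abs _ _) (abs_nonneg _) (iv_abs _ _)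
    · exact (integrable_of_abs_le lam hm2 1 fun y => iv_abs _ _).const_mul _
  unfold Dv
  rw [e1, e2, e3, e4]
  push_cast
  ring

theorem rect_AA (hT : Tst S) (A A' : Set XX) (H : ℕ) [NeZero H] (d d' : Finset (Fin H)) (c c' : ℂ) :
    Tendsto (AA S ((rect A H d).indicator fun _ => c) ((rect A' H d').indicator fun _ => c')) atTop (𝓝 0) := by
  have h1 : ∀ n, AA S ((rect A H d).indicator fun _ => c) ((rect A' H d').indicator fun _ => c') n ≤
      ‖c * starRingEnd ℂ c'‖ₑ ^ 2 * ENNReal.ofReal (∫ x, tt S H d d' n x ^ 2 ∂mm) := by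
    intro n
    have hi : Integrable (fun x => tt S H d d' n x ^ 2) mm :=
      integrable_of_abs_le mm ((tt_meas S H d d' n).pow_const 2) 1 fun x => by
        rw [abs_pow]
        exact pow_le_one₀ (abs_nonneg _) (tt_abs S H d d' n x)
    rw [ofReal_integral_eq_lintegral_ofReal hi (Eventually.of_forall fun x => sq_nonneg _),
      ← lintegral_const_mul' _ _ (ENNReal.pow_ne_top enorm_ne_top)]
    unfold AA
    apply lintegral_mono_ae
    filter_upwards [rect_Dv S hS A A' H d d' c c' n] with x hx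
    rw [hx, enorm_mul, mul_pow]
    gcongr
    have e1 : ‖((A.indicator (fun _ => (1 : ℝ)) ((sh : XX → XX)^[n] x) *
        A'.indicator (fun _ => (1 : ℝ)) x * tt S H d d' n x : ℝ) : ℂ)‖ ≤ |tt S H d d' n x| := by
      rw [Complex.norm_real, Real.norm_eq_abs, abs_mul, abs_mul]
      have i1 : |A.indicator (fun _ => (1 : ℝ)) ((sh : XX → XX)^[n] x)| ≤ 1 := by
        by_cases h : (sh : XX → XX)^[n] x ∈ A
        · rw [indicator_of_mem h]; simp
        · rw [indicator_of_notMem h]; simp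
      have i2 : |A'.indicator (fun _ => (1 : ℝ)) x| ≤ 1 := by
        by_cases h : x ∈ A'
        · rw [indicator_of_mem h]; simp
        · rw [indicator_of_notMem h]; simp
      calc _ ≤ 1 * |tt S H d d' n x| := mul_le_mul_of_nonneg_right (mul_le_one₀ i1 (abs_nonneg _) i2) (abs_nonneg _)
        _ = _ := one_mul _
    rw [← ofReal_norm, ← ENNReal.ofReal_pow (norm_nonneg _)]
    apply ENNReal.ofReal_le_ofReal
    rw [← sq_abs (tt S H d d' n x)]
    gcongr
  have h2 : Tendsto (fun n => ‖c * starRingEnd ℂ c'‖ₑ ^ 2 * ENNReal.ofReal (∫ x, tt S H d d' n x ^ 2 ∂mm)) atTop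
      (𝓝 (‖c * starRingEnd ℂ c'‖ₑ ^ 2 * 0)) := by
    refine ENNReal.Tendsto.const_mul ?_ (Or.inr (ENNReal.pow_ne_top enorm_ne_top))
    have := ENNReal.tendsto_ofReal (hT H d d')
    rwa [ENNReal.ofReal_zero] at this
  rw [mul_zero] at h2
  exact tendsto_of_tendsto_of_tendsto_of_le_of_le tendsto_const_nhds h2 (fun _ => zero_le) h1

/-- rectangles of a level are rectangles of a finer level -/
theorem rect_raise (A : Set XX) (H m : ℕ) [NeZero H] [NeZero m] [NeZero (H * m)] (d : Finset (Fin H)) (c : ℂ) :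
    ∃ d1 : Finset (Fin (H * m)), (rect A H d).indicator (fun _ => c) =ᵐ[mm.prod lam]
      (rect A (H * m) d1).indicator (fun _ => c) := by
  classical
  refine ⟨Finset.univ.filter (fun b : Fin (H * m) => Fin.ofNat H ((b : ℕ) / m) ∈ d), ?_⟩
  have hico : ∀ᵐ z ∂(mm.prod lam), z.2 ∈ Ico (0 : ℝ) 1 :=
    (measurePreserving_snd (μ := mm) (ν := lam)).quasiMeasurePreserving.ae ae_Ico
  filter_upwards [hico] with z hz
  have h1 : z ∈ rect A H d ↔ z ∈ rect A (H * m) (Finset.univ.filter (fun b : Fin (H * m) => Fin.ofNat H ((b : ℕ) / m) ∈ d)) := by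
    show (z.1 ∈ A ∧ flf H z.2 ∈ d) ↔ (z.1 ∈ A ∧ flf (H * m) z.2 ∈ Finset.univ.filter _)
    rw [Finset.mem_filter, flf_val (H * m) z.2 hz, ← fl_div H m (NeZero.pos H) (NeZero.pos m)]
    unfold flf
    simp
  by_cases h : z ∈ rect A H d
  · rw [indicator_of_mem h, indicator_of_mem (h1.1 h)]
  · rw [indicator_of_notMem h, indicator_of_notMem (fun h' => h (h1.2 h'))]

theorem rect_AA' (hT : Tst S) (A A' : Set XX) (H H' : ℕ) [NeZero H] [NeZero H'] (d : Finset (Fin H))
    (d' : Finset (Fin H')) (c c' : ℂ) :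
    Tendsto (AA S ((rect A H d).indicator fun _ => c) ((rect A' H' d').indicator fun _ => c')) atTop (𝓝 0) := by
  have hNZ : NeZero (H * H') := ⟨by have := NeZero.ne H; have := NeZero.ne H'; positivity⟩
  have hNZ' : NeZero (H' * H) := ⟨by have := NeZero.ne H; have := NeZero.ne H'; positivity⟩
  obtain ⟨d1, h1⟩ := rect_raise S hS A H H' d c
  obtain ⟨d2, h2⟩ := rect_raise S hS A' H' H d' c'
  have h3 : ∃ d3 : Finset (Fin (H * H')), (rect A' (H' * H) d2).indicator (fun _ => c') =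
      (rect A' (H * H') d3).indicator (fun _ => c') := by
    have hcomm : H' * H = H * H' := mul_comm _ _
    generalize H' * H = K at *
    subst hcomm
    exact ⟨d2, rfl⟩
  obtain ⟨d3, h3⟩ := h3
  rw [h3] at h2
  have h4 : AA S ((rect A H d).indicator fun _ => c) ((rect A' H' d').indicator fun _ => c') =
      AA S ((rect A (H * H') d1).indicator fun _ => c) ((rect A' (H * H') d3).indicator fun _ => c') := by
    funext n
    exact AA_congr S hS _ _ _ _ h1 h2 n
  rw [h4]
  exact rect_AA S hS hT A A' (H * H') d1 d3 c c'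

end

theorem principle2 (Q : (XX × ℝ → ℂ) → ℕ → ℝ≥0∞) (K : ℝ≥0∞) (hK : K ≠ ∞)
    (hadd : ∀ f f', MemLp f 2 (mm.prod lam) → MemLp f' 2 (mm.prod lam) → ∀ n, Q (f + f') n ≤ 4 * Q f n + 4 * Q f' n)
    (hb : ∀ f, MemLp f 2 (mm.prod lam) → ∀ n, Q f n ≤ K * eLpNorm f 2 (mm.prod lam) ^ 2)
    (hcongr : ∀ f f', f =ᵐ[mm.prod lam] f' → Q f = Q f')
    (hrect : ∀ (A : Set XX), MeasurableSet A → ∀ (H : ℕ) [NeZero H] (d : Finset (Fin H)) (c : ℂ),
      Tendsto (Q ((rect A H d).indicator fun _ => c)) atTop (𝓝 0)) :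
    ∀ f, MemLp f 2 (mm.prod lam) → Tendsto (Q f) atTop (𝓝 0) := by
  classical
  refine principle (mm.prod lam) Q K hK hadd hb {E | ∃ (H : ℕ) (_ : 0 < H) (B : Set (XX × ℕ)), MeasurableSet B ∧ E = LS H B}
    ?_ ?_ ?_
  · rintro _ ⟨H, _, B, hB, rfl⟩
    exact LS_meas H B hB
  · intro E hE η hη
    obtain ⟨m, hm, B, hB, h⟩ := LSApx mm E hE 1 one_pos η hη
    exact ⟨LS (1 * m) B, ⟨1 * m, by omega, B, hB, rfl⟩, h⟩
  · rintro _ ⟨H, hH, B, hB, rfl⟩ c
    have hNZ : NeZero H := ⟨hH.ne'⟩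
    let R : Fin H → Set (XX × ℝ) := fun j => rect {x | (x, (j : ℕ)) ∈ B} H {j}
    have hRm : ∀ j, MeasurableSet (R j) := fun j => rect_meas _ ((measurable_id.prodMk measurable_const) hB) H {j}
    have hico : ∀ᵐ z ∂(mm.prod lam), z.2 ∈ Ico (0 : ℝ) 1 :=
      (measurePreserving_snd (μ := mm) (ν := lam)).quasiMeasurePreserving.ae ae_Ico
    have h1 : (LS H B).indicator (fun _ => c) =ᵐ[mm.prod lam] ∑ j : Fin H, (R j).indicator (fun _ => c) := by
      filter_upwards [hico] with z hz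
      rw [Finset.sum_apply, Finset.sum_eq_single (flf H z.2)]
      · have h2 : z ∈ LS H B ↔ z ∈ R (flf H z.2) := by
          show (z.1, fl H z.2) ∈ B ↔ ((z.1, ((flf H z.2 : Fin H) : ℕ)) ∈ B ∧ flf H z.2 ∈ ({flf H z.2} : Finset (Fin H)))
          rw [flf_val H z.2 hz]
          simp
        by_cases h : z ∈ LS H B
        · rw [indicator_of_mem h, indicator_of_mem (h2.1 h)]
        · rw [indicator_of_notMem h, indicator_of_notMem (fun h' => h (h2.2 h'))]
      · intro j _ hj
        rw [indicator_of_notMem]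
        intro h
        have := h.2
        rw [Finset.mem_singleton] at this
        exact hj this.symm
      · intro h
        exact absurd (Finset.mem_univ _) h
    rw [hcongr _ _ h1]
    have h2 : ∀ s : Finset (Fin H), MemLp (∑ j ∈ s, (R j).indicator (fun _ => c)) 2 (mm.prod lam) ∧
        Tendsto (Q (∑ j ∈ s, (R j).indicator (fun _ => c))) atTop (𝓝 0) := by
      intro s
      induction s using Finset.induction_on with
      | empty =>
        rw [Finset.sum_empty]
        have h0 : MemLp (0 : XX × ℝ → ℂ) 2 (mm.prod lam) := MemLp.zero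
        refine ⟨h0, ?_⟩
        have : Q 0 = fun _ => 0 := by
          funext n
          have := hb 0 h0 n
          simpa using this
        rw [this]
        exact tendsto_const_nhds
      | insert j s hj ih =>
        rw [Finset.sum_insert hj]
        have h3 : MemLp ((R j).indicator (fun _ => c)) 2 (mm.prod lam) :=
          memLp_indicator_const 2 (hRm j) c (Or.inr (measure_ne_top _ _))
        refine ⟨h3.add ih.1, ?_⟩
        have h4 : Tendsto (fun n => 4 * Q ((R j).indicator (fun _ => c)) n +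
            4 * Q (∑ j ∈ s, (R j).indicator (fun _ => c)) n) atTop (𝓝 (4 * 0 + 4 * 0)) :=
          (ENNReal.Tendsto.const_mul (hrect _ ((measurable_id.prodMk measurable_const) hB) H {j} c) (Or.inr (by norm_num))).add
            (ENNReal.Tendsto.const_mul ih.2 (Or.inr (by norm_num)))
        rw [mul_zero, add_zero] at h4
        exact tendsto_of_tendsto_of_tendsto_of_le_of_le tendsto_const_nhds h4 (fun _ => zero_le)
          (hadd _ _ h3 ih.1)
    exact (h2 Finset.univ).2

section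
variable (S : (XX × ℝ) ≃ᵐ (XX × ℝ)) (hS : IsExt mm lam sh S)
include hS

theorem sq_norm (f : XX × ℝ → ℂ) : eLpNorm f 2 (mm.prod lam) ^ 2 = ∫⁻ z, ‖f z‖ₑ ^ 2 ∂(mm.prod lam) := by
  rw [eLpNorm_eq_lintegral_rpow_enorm_toReal (by norm_num) (by norm_num)]
  have h3 : ∀ a : ℝ≥0∞, (a ^ ((1 : ℝ) / 2)) ^ 2 = a := by
    intro a
    rw [← ENNReal.rpow_natCast, ← ENNReal.rpow_mul]
    norm_num
  have h4 : ENNReal.toReal 2 = 2 := by norm_num
  rw [h4, h3]
  congr 1
  funext z
  exact ENNReal.rpow_ofNat _ 2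

theorem bound_left' (f g : XX × ℝ → ℂ) (hf : MemLp f 2 (mm.prod lam)) (hg : MemLp g 2 (mm.prod lam)) (C : ℝ≥0∞)
    (hC : C ≠ ∞) (hgC : ∀ᵐ x ∂mm, ∫⁻ y, ‖g (x, y)‖ₑ ^ 2 ∂lam ≤ C) (n : ℕ) :
    AA S f g n ≤ 8 * C * eLpNorm f 2 (mm.prod lam) ^ 2 := by
  have h1 := hf.aestronglyMeasurable.aemeasurable
  have h2 := hg.aestronglyMeasurable.aemeasurable
  rw [AA_congr S hS f (h1.mk f) g (h2.mk g) h1.ae_eq_mk h2.ae_eq_mk, eLpNorm_congr_ae h1.ae_eq_mk, sq_norm S hS]
  apply bound_left S hS _ _ h1.measurable_mk h2.measurable_mk C hC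
  filter_upwards [hgC, Measure.ae_ae_of_ae_prod h2.ae_eq_mk] with x hx1 hx2
  refine le_trans (le_of_eq ?_) hx1
  apply lintegral_congr_ae
  filter_upwards [hx2] with y hy
  rw [hy]

theorem bound_right' (f g : XX × ℝ → ℂ) (hf : MemLp f 2 (mm.prod lam)) (hg : MemLp g 2 (mm.prod lam)) (C : ℝ≥0∞)
    (hC : C ≠ ∞) (hfC : ∀ᵐ x ∂mm, ∫⁻ y, ‖f (x, y)‖ₑ ^ 2 ∂lam ≤ C) (n : ℕ) :
    AA S f g n ≤ 8 * C * eLpNorm g 2 (mm.prod lam) ^ 2 := by
  have h1 := hf.aestronglyMeasurable.aemeasurable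
  have h2 := hg.aestronglyMeasurable.aemeasurable
  rw [AA_congr S hS f (h1.mk f) g (h2.mk g) h1.ae_eq_mk h2.ae_eq_mk, eLpNorm_congr_ae h2.ae_eq_mk, sq_norm S hS]
  apply bound_right S hS _ _ h1.measurable_mk h2.measurable_mk C hC
  filter_upwards [hfC, Measure.ae_ae_of_ae_prod h1.ae_eq_mk] with x hx1 hx2
  refine le_trans (le_of_eq ?_) hx1
  apply lintegral_congr_ae
  filter_upwards [hx2] with y hy
  rw [hy]

/-- **relative mixing from the countable family of conditions** -/
theorem all_AA (hT : Tst S) (f g : XX × ℝ → ℂ) (hf : MemLp f 2 (mm.prod lam)) (hg : MemLp g 2 (mm.prod lam))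
    (C : ℝ≥0∞) (hC : C ≠ ∞) (hfC : ∀ᵐ x ∂mm, ∫⁻ y, ‖f (x, y)‖ₑ ^ 2 ∂lam ≤ C) :
    Tendsto (AA S f g) atTop (𝓝 0) := by
  -- stage 1
  have stage1 : ∀ (A' : Set XX), MeasurableSet A' → ∀ (H' : ℕ) [NeZero H'] (d' : Finset (Fin H')) (c' : ℂ),
      ∀ f, MemLp f 2 (mm.prod lam) → Tendsto (AA S f ((rect A' H' d').indicator fun _ => c')) atTop (𝓝 0) := by
    intro A' hA' H' _ d' c'
    have hgm : MemLp ((rect A' H' d').indicator fun _ => c') 2 (mm.prod lam) :=
      memLp_indicator_const 2 (rect_meas A' hA' H' d') c' (Or.inr (measure_ne_top _ _))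
    have hgb : ∀ᵐ x ∂mm, ∫⁻ y, ‖(rect A' H' d').indicator (fun _ => c') (x, y)‖ₑ ^ 2 ∂lam ≤ ‖c'‖ₑ ^ 2 := by
      refine Eventually.of_forall fun x => ?_
      calc _ ≤ ∫⁻ y, ‖c'‖ₑ ^ 2 ∂lam := by
            apply lintegral_mono
            intro y
            show ‖(rect A' H' d').indicator (fun _ => c') (x, y)‖ₑ ^ 2 ≤ ‖c'‖ₑ ^ 2
            gcongr
            exact enorm_indicator_le_enorm_self _ _
        _ = _ := by simp
    have hCt : ‖c'‖ₑ ^ 2 ≠ ∞ := ENNReal.pow_ne_top enorm_ne_top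
    refine principle2 (fun f => AA S f ((rect A' H' d').indicator fun _ => c')) (8 * ‖c'‖ₑ ^ 2)
      (ENNReal.mul_ne_top (by norm_num) hCt) ?_ ?_ ?_ ?_
    · intro f f' hf hf' n
      exact AA_of_add S hS _ _ _ _ _ _ (hf.add hf') hgm n
        (Dv_aemeas S hS _ _ hf.aestronglyMeasurable.aemeasurable hgm.aestronglyMeasurable.aemeasurable n)
        (Dv_add_left S hS f f' _ hf hf' hgm n)
    · intro f hf n
      exact bound_left' S hS f _ hf hgm _ hCt hgb n
    · intro f f' h
      funext n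
      exact AA_congr S hS _ _ _ _ h (ae_eq_refl _) n
    · intro A hA H _ d c
      exact rect_AA' S hS hT A A' H H' d d' c c'
  refine principle2 (fun g => AA S f g) (8 * C) (ENNReal.mul_ne_top (by norm_num) hC) ?_ ?_ ?_ ?_ g hg
  · intro g g' hg hg' n
    exact AA_of_add S hS _ _ _ _ _ _ hf (hg.add hg') n
      (Dv_aemeas S hS _ _ hf.aestronglyMeasurable.aemeasurable hg.aestronglyMeasurable.aemeasurable n)
      (Dv_add_right S hS f g g' hf hg hg' n)
  · intro g hg n
    exact bound_right' S hS f g hf hg C hC hfC n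
  · intro g g' h
    funext n
    exact AA_congr S hS _ _ _ _ (ae_eq_refl _) h n
  · intro A hA H _ d c
    exact stage1 A hA H d c f hf

end

end Pool.Agent.X182.SM
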