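import Mathlib
import Pool.Agent.X182.SM.H
import Pool.Agent.H359R3.MX12

set_option autoImplicit false
set_option linter.unusedSectionVars false
set_option linter.unusedVariables false

/-!
Transport to arbitrary nonatomic standard spaces.
-/

namespace Pool.Agent.X182.SM

open MeasureTheory Set Filter Topology
open scoped ENNReal symmDiff
open Pool.H359R3 Pool.H359R3.WH Pool.H359R3.MX

section
variable {X Y : Type*} [MeasurableSpace X] [MeasurableSpace Y]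

/-- the product isomorphism -/
def EQ (e1 : X ≃ᵐ XX) (e2 : Y ≃ᵐ ℝ) : X × Y ≃ᵐ XX × ℝ := MeasurableEquiv.prodCongr e1 e2

/-- conjugation -/
def cj (e1 : X ≃ᵐ XX) (e2 : Y ≃ᵐ ℝ) (S : X × Y ≃ᵐ X × Y) : XX × ℝ ≃ᵐ XX × ℝ :=
  ((EQ e1 e2).symm.trans S).trans (EQ e1 e2)

/-- the transported shift -/
def RR (e1 : X ≃ᵐ XX) : X ≃ᵐ X := (e1.trans sh).trans e1.symm

theorem EQ_apply (e1 : X ≃ᵐ XX) (e2 : Y ≃ᵐ ℝ) (z : X × Y) : EQ e1 e2 z = (e1 z.1, e2 z.2) := rfl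

theorem cj_iter (e1 : X ≃ᵐ XX) (e2 : Y ≃ᵐ ℝ) (S : X × Y ≃ᵐ X × Y) (n : ℕ) (z : X × Y) :
    (cj e1 e2 S : XX × ℝ → XX × ℝ)^[n] (EQ e1 e2 z) = EQ e1 e2 ((S : X × Y → X × Y)^[n] z) := by
  induction n generalizing z with
  | zero => rfl
  | succ n ih =>
    rw [Function.iterate_succ_apply, Function.iterate_succ_apply, ← ih]
    congr 1
    show EQ e1 e2 (S ((EQ e1 e2).symm (EQ e1 e2 z))) = _
    rw [MeasurableEquiv.symm_apply_apply]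

theorem RR_iter (e1 : X ≃ᵐ XX) (n : ℕ) (x : X) : e1 ((RR e1 : X → X)^[n] x) = (sh : XX → XX)^[n] (e1 x) := by
  induction n generalizing x with
  | zero => rfl
  | succ n ih =>
    rw [Function.iterate_succ_apply, Function.iterate_succ_apply, ih]
    congr 1
    show e1 (e1.symm (sh (e1 x))) = _
    rw [MeasurableEquiv.apply_symm_apply]

variable (μ : Measure X) (ν : Measure Y) [IsProbabilityMeasure μ] [IsProbabilityMeasure ν]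

theorem RR_mp (e1 : X ≃ᵐ XX) (h1 : MeasurePreserving e1 μ mm) : MeasurePreserving (RR e1) μ μ :=
  (MeasurePreserving.symm e1 h1).comp (sh_mp.comp h1)

theorem cj_ext (e1 : X ≃ᵐ XX) (h1 : MeasurePreserving e1 μ mm) (e2 : Y ≃ᵐ ℝ) (h2 : MeasurePreserving e2 ν lam)
    (S : X × Y ≃ᵐ X × Y) (hS : IsExt μ ν (RR e1) S) : IsExt mm lam sh (cj e1 e2 S) := by
  have hE : MeasurePreserving (EQ e1 e2) (μ.prod ν) (mm.prod lam) := h1.prod h2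
  have hE' := MeasurePreserving.symm (EQ e1 e2) hE
  refine ⟨hE.comp (hS.1.comp hE'), ?_⟩
  have h3 := hE'.quasiMeasurePreserving.ae hS.2
  filter_upwards [h3] with w hw
  show e1 (S ((EQ e1 e2).symm w)).1 = sh w.1
  rw [hw]
  show e1 (e1.symm (sh (e1 ((EQ e1 e2).symm w).1))) = sh w.1
  rw [MeasurableEquiv.apply_symm_apply]
  congr 1
  show e1 (e1.symm w.1) = w.1
  rw [MeasurableEquiv.apply_symm_apply]

theorem cj_sd (e1 : X ≃ᵐ XX) (h1 : MeasurePreserving e1 μ mm) (e2 : Y ≃ᵐ ℝ) (h2 : MeasurePreserving e2 ν lam)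
    (S S' : X × Y ≃ᵐ X × Y) (A : Set (XX × ℝ)) (hA : MeasurableSet A) :
    (mm.prod lam).real ((cj e1 e2 S ⁻¹' A) ∆ (cj e1 e2 S' ⁻¹' A)) =
      (μ.prod ν).real ((S ⁻¹' (EQ e1 e2 ⁻¹' A)) ∆ (S' ⁻¹' (EQ e1 e2 ⁻¹' A))) := by
  have hE : MeasurePreserving (EQ e1 e2) (μ.prod ν) (mm.prod lam) := h1.prod h2
  have hE' := MeasurePreserving.symm (EQ e1 e2) hE
  have h3 : (cj e1 e2 S ⁻¹' A) ∆ (cj e1 e2 S' ⁻¹' A) =
      (EQ e1 e2).symm ⁻¹' ((S ⁻¹' (EQ e1 e2 ⁻¹' A)) ∆ (S' ⁻¹' (EQ e1 e2 ⁻¹' A))) := rfl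
  have hm : MeasurableSet ((S ⁻¹' (EQ e1 e2 ⁻¹' A)) ∆ (S' ⁻¹' (EQ e1 e2 ⁻¹' A))) :=
    (S.measurable ((EQ e1 e2).measurable hA)).symmDiff (S'.measurable ((EQ e1 e2).measurable hA))
  rw [h3, measureReal_def, hE'.measure_preimage hm.nullMeasurableSet]
  rfl

theorem local_gen (e1 : X ≃ᵐ XX) (h1 : MeasurePreserving e1 μ mm) (e2 : Y ≃ᵐ ℝ) (h2 : MeasurePreserving e2 ν lam)
    (S : X × Y ≃ᵐ X × Y) (hS : IsExt μ ν (RR e1) S) (r : ℕ) (E : Fin r → Set (X × Y))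
    (hE : ∀ i, MeasurableSet (E i)) (δ : ℝ) (hδ : 0 < δ) (H : ℕ) [NeZero H] (d d' : Finset (Fin H))
    (ε : ℝ) (hε : 0 < ε) :
    ∃ S0 : X × Y ≃ᵐ X × Y, IsExt μ ν (RR e1) S0 ∧
      (∀ i, (μ.prod ν).real ((S ⁻¹' E i) ∆ (S0 ⁻¹' E i)) < δ) ∧
      ∃ J : Set (Set (X × Y)), J.Finite ∧ (∀ F ∈ J, MeasurableSet F) ∧ ∃ δ' : ℝ, 0 < δ' ∧ ∃ n0 : ℕ,
        ∀ S' : X × Y ≃ᵐ X × Y, IsExt μ ν (RR e1) S' →
          (∀ F ∈ J, (μ.prod ν).real ((S' ⁻¹' F) ∆ (S0 ⁻¹' F)) ≤ δ') → ∀ n ≥ n0,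
          ∫ x, tt (cj e1 e2 S') H d d' n x ^ 2 ∂mm ≤ ε := by
  obtain ⟨T0, hT0, hclose, J, hJf, hJm, δ', hδ', n0, hopen⟩ := local_dense (cj e1 e2 S) (cj_ext μ ν e1 h1 e2 h2 S hS) r
    (fun i => (EQ e1 e2).symm ⁻¹' E i) (fun i => (EQ e1 e2).symm.measurable (hE i)) δ hδ H (gv d) (iv d')
    (gv_abs d) (iv_abs d') (gv_sum d) ε hε
  have hEE : MeasurePreserving (EQ e1 e2) (μ.prod ν) (mm.prod lam) := h1.prod h2
  have hE' := MeasurePreserving.symm (EQ e1 e2) hEE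
  let S0 : X × Y ≃ᵐ X × Y := ((EQ e1 e2).trans T0).trans (EQ e1 e2).symm
  have hcj : cj e1 e2 S0 = T0 := by
    apply MeasurableEquiv.ext
    funext w
    show (EQ e1 e2) ((EQ e1 e2).symm (T0 (EQ e1 e2 ((EQ e1 e2).symm w)))) = T0 w
    rw [MeasurableEquiv.apply_symm_apply, MeasurableEquiv.apply_symm_apply]
  refine ⟨S0, ⟨hE'.comp (hT0.1.comp hEE), ?_⟩, ?_, (fun F => EQ e1 e2 ⁻¹' F) '' J, hJf.image _, ?_, δ', hδ', n0, ?_⟩
  · have h3 := hEE.quasiMeasurePreserving.ae hT0.2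
    filter_upwards [h3] with z hz
    show e1.symm (T0 (EQ e1 e2 z)).1 = e1.symm (sh (e1 z.1))
    rw [hz]
    rfl
  · intro i
    have h3 := hclose i
    rw [← hcj, cj_sd μ ν e1 h1 e2 h2 S S0 _ ((EQ e1 e2).symm.measurable (hE i))] at h3
    have h4 : EQ e1 e2 ⁻¹' ((EQ e1 e2).symm ⁻¹' E i) = E i := by
      ext z
      show (EQ e1 e2).symm (EQ e1 e2 z) ∈ E i ↔ z ∈ E i
      rw [MeasurableEquiv.symm_apply_apply]
    rw [h4] at h3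
    exact h3
  · rintro _ ⟨F, hF, rfl⟩
    exact (EQ e1 e2).measurable (hJm F hF)
  · intro S' hS' hc n hn
    refine hopen (cj e1 e2 S') (cj_ext μ ν e1 h1 e2 h2 S' hS') (fun F hF => ?_) n hn
    rw [← hcj, cj_sd μ ν e1 h1 e2 h2 S' S0 _ (hJm F hF)]
    exact hc _ ⟨F, hF, rfl⟩

theorem sm_gen (e1 : X ≃ᵐ XX) (h1 : MeasurePreserving e1 μ mm) (e2 : Y ≃ᵐ ℝ) (h2 : MeasurePreserving e2 ν lam)
    (S : X × Y ≃ᵐ X × Y) (hS : IsExt μ ν (RR e1) S) (hT : Tst (cj e1 e2 S)) (f g : X × Y → ℂ)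
    (hf : MemLp f 2 (μ.prod ν)) (hg : MemLp g 2 (μ.prod ν))
    (hfb : MemLp (fun x => Real.sqrt (∫ y, ‖f (x, y)‖ ^ 2 ∂ν)) ∞ μ) :
    Tendsto (fun n => eLpNorm (fun x => (∫ y, f ((S : X × Y → X × Y)^[n] (x, y)) * starRingEnd ℂ (g (x, y)) ∂ν) -
      (∫ y, f ((RR e1 : X → X)^[n] x, y) ∂ν) * ∫ y, starRingEnd ℂ (g (x, y)) ∂ν) 2 μ) atTop (𝓝 0) := by
  have hE : MeasurePreserving (EQ e1 e2) (μ.prod ν) (mm.prod lam) := h1.prod h2
  have hE' := MeasurePreserving.symm (EQ e1 e2) hE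
  have h1' := MeasurePreserving.symm e1 h1
  set f' : XX × ℝ → ℂ := fun w => f ((EQ e1 e2).symm w) with hf'
  set g' : XX × ℝ → ℂ := fun w => g ((EQ e1 e2).symm w) with hg'
  have hf'L : MemLp f' 2 (mm.prod lam) := hf.comp_measurePreserving hE'
  have hg'L : MemLp g' 2 (mm.prod lam) := hg.comp_measurePreserving hE'
  have hff : ∀ z, f' (EQ e1 e2 z) = f z := fun z => by
    rw [hf']
    show f ((EQ e1 e2).symm (EQ e1 e2 z)) = f z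
    rw [MeasurableEquiv.symm_apply_apply]
  have hgg : ∀ z, g' (EQ e1 e2 z) = g z := fun z => by
    rw [hg']
    show g ((EQ e1 e2).symm (EQ e1 e2 z)) = g z
    rw [MeasurableEquiv.symm_apply_apply]
  have hint : ∀ F : ℝ → ℂ, ∫ y, F (e2 y) ∂ν = ∫ y, F y ∂lam := fun F => h2.integral_comp e2.measurableEmbedding F
  -- the fibre bound
  obtain ⟨C, hC, hCb⟩ : ∃ C : ℝ≥0∞, C ≠ ∞ ∧ ∀ᵐ x ∂mm, ∫⁻ y, ‖f' (x, y)‖ₑ ^ 2 ∂lam ≤ C := by
    have e1' : eLpNorm (fun x => Real.sqrt (∫ y, ‖f (x, y)‖ ^ 2 ∂ν)) ∞ μ < ∞ := hfb.2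
    rw [eLpNorm_exponent_top] at e1'
    set B := eLpNormEssSup (fun x => Real.sqrt (∫ y, ‖f (x, y)‖ ^ 2 ∂ν)) μ with hB
    refine ⟨B ^ 2, ENNReal.pow_ne_top e1'.ne, ?_⟩
    have e3 : ∀ᵐ x ∂μ, ‖Real.sqrt (∫ y, ‖f (x, y)‖ ^ 2 ∂ν)‖ₑ ≤ B := enorm_ae_le_eLpNormEssSup _ _
    have e4 : Integrable (fun z => ‖f z‖ ^ 2) (μ.prod ν) := hf.integrable_norm_pow (by norm_num)
    have e5 : ∀ᵐ x ∂μ, ∫⁻ y, ‖f (x, y)‖ₑ ^ 2 ∂ν ≤ B ^ 2 := by
      filter_upwards [e3, e4.prod_right_ae] with x hx1 hx2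
      have e6 : ∫⁻ y, ‖f (x, y)‖ₑ ^ 2 ∂ν = ENNReal.ofReal (∫ y, ‖f (x, y)‖ ^ 2 ∂ν) := by
        rw [ofReal_integral_eq_lintegral_ofReal hx2 (Eventually.of_forall fun y => by positivity)]
        congr 1
        funext y
        rw [← ofReal_norm, ENNReal.ofReal_pow (norm_nonneg _)]
      rw [e6]
      have e7 : (0 : ℝ) ≤ ∫ y, ‖f (x, y)‖ ^ 2 ∂ν := integral_nonneg fun y => by positivity
      calc ENNReal.ofReal (∫ y, ‖f (x, y)‖ ^ 2 ∂ν) = ENNReal.ofReal (Real.sqrt (∫ y, ‖f (x, y)‖ ^ 2 ∂ν) ^ 2) := by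
            rw [Real.sq_sqrt e7]
        _ = ‖Real.sqrt (∫ y, ‖f (x, y)‖ ^ 2 ∂ν)‖ₑ ^ 2 := by
            rw [ENNReal.ofReal_pow (Real.sqrt_nonneg _), Real.enorm_eq_ofReal (Real.sqrt_nonneg _)]
        _ ≤ B ^ 2 := by gcongr
    have e8 := h1'.quasiMeasurePreserving.ae e5
    filter_upwards [e8] with x hx
    refine le_trans (le_of_eq ?_) hx
    rw [← h2.lintegral_comp_emb e2.measurableEmbedding]
    congr 1
    funext y
    rw [hf']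
    show ‖f (e1.symm x, e2.symm (e2 y))‖ₑ ^ 2 = _
    rw [MeasurableEquiv.symm_apply_apply]
  have hAA := all_AA (cj e1 e2 S) (cj_ext μ ν e1 h1 e2 h2 S hS) hT f' g' hf'L hg'L C hC hCb
  have hkey : ∀ n, eLpNorm (fun x => (∫ y, f ((S : X × Y → X × Y)^[n] (x, y)) * starRingEnd ℂ (g (x, y)) ∂ν) -
      (∫ y, f ((RR e1 : X → X)^[n] x, y) ∂ν) * ∫ y, starRingEnd ℂ (g (x, y)) ∂ν) 2 μ =
      (AA (cj e1 e2 S) f' g' n) ^ ((1 : ℝ) / 2) := by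
    intro n
    have e1' : (fun x => (∫ y, f ((S : X × Y → X × Y)^[n] (x, y)) * starRingEnd ℂ (g (x, y)) ∂ν) -
      (∫ y, f ((RR e1 : X → X)^[n] x, y) ∂ν) * ∫ y, starRingEnd ℂ (g (x, y)) ∂ν) =
      (Dv (cj e1 e2 S) f' g' n) ∘ e1 := by
      funext x
      show _ = (∫ y, f' ((cj e1 e2 S : XX × ℝ → XX × ℝ)^[n] (e1 x, y)) * starRingEnd ℂ (g' (e1 x, y)) ∂lam) -
        (∫ y, f' ((sh : XX → XX)^[n] (e1 x), y) ∂lam) * ∫ y, starRingEnd ℂ (g' (e1 x, y)) ∂lam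
      rw [← hint (fun y => f' ((cj e1 e2 S : XX × ℝ → XX × ℝ)^[n] (e1 x, y)) * starRingEnd ℂ (g' (e1 x, y))),
        ← hint (fun y => f' ((sh : XX → XX)^[n] (e1 x), y)), ← hint (fun y => starRingEnd ℂ (g' (e1 x, y)))]
      congr 1
      · congr 1
        funext y
        have i1 : (cj e1 e2 S : XX × ℝ → XX × ℝ)^[n] (e1 x, e2 y) = EQ e1 e2 ((S : X × Y → X × Y)^[n] (x, y)) :=
          cj_iter e1 e2 S n (x, y)
        have i2 : g' (e1 x, e2 y) = g (x, y) := hgg (x, y)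
        rw [i1, hff, i2]
      · congr 1
        · congr 1
          funext y
          have i3 : f' (EQ e1 e2 ((RR e1 : X → X)^[n] x, y)) = f ((RR e1 : X → X)^[n] x, y) := hff _
          rw [← i3, EQ_apply, RR_iter]
        · congr 1
          funext y
          have i2 : g' (e1 x, e2 y) = g (x, y) := hgg (x, y)
          rw [i2]
    rw [e1', eLpNorm_comp_measurePreserving (Dv_aemeas _ (cj_ext μ ν e1 h1 e2 h2 S hS) _ _
      hf'L.aestronglyMeasurable.aemeasurable hg'L.aestronglyMeasurable.aemeasurable n).aestronglyMeasurable h1,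
      eLpNorm_eq_lintegral_rpow_enorm_toReal (by norm_num) (by norm_num)]
    have h4 : ENNReal.toReal 2 = 2 := by norm_num
    rw [h4]
    congr 1
    unfold AA
    congr 1
    funext z
    exact ENNReal.rpow_ofNat _ 2
  simp_rw [hkey]
  have h5 := (ENNReal.continuous_rpow_const (y := (1 : ℝ) / 2)).tendsto 0
  rw [ENNReal.zero_rpow_of_pos (by norm_num)] at h5
  exact h5.comp hAA

end

end Pool.Agent.X182.SM
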